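import Mathlib

/-!
A complex differentiable function on `ℂ ^ n` has a complex differentiable derivative.
-/

set_option autoImplicit false

open Metric Filter Topology MeasureTheory

namespace Pool.Agent.Lib.MP_db21fa_an_h84

variable {n : ℕ}

theorem line_deriv {f : (Fin n → ℂ) → ℂ} (hf : Differentiable ℂ f) (z v : Fin n → ℂ) (τ : ℂ) :
    HasDerivAt (fun t : ℂ => f (z + t • v)) (fderiv ℂ f (z + τ • v) v) τ := by
  have h2 : HasFDerivAt f (fderiv ℂ f (z + τ • v)) (z + τ • v) := (hf _).hasFDerivAt
  have h3 : HasDerivAt (fun t : ℂ => z + t • v) v τ := by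
    simpa using ((hasDerivAt_id τ).smul_const v).const_add z
  exact h2.comp_hasDerivAt τ h3

theorem fderiv_le {f : (Fin n → ℂ) → ℂ} (hf : Differentiable ℂ f) {z : Fin n → ℂ} {M : ℝ}
    (hM : ∀ w ∈ closedBall z 1, ‖f w‖ ≤ M) : ‖fderiv ℂ f z‖ ≤ M := by
  have hM0 : 0 ≤ M := (norm_nonneg _).trans (hM z (mem_closedBall_self (by norm_num)))
  have key : ∀ w : Fin n → ℂ, ‖w‖ ≤ 1 → ‖fderiv ℂ f z w‖ ≤ M := by
    intro w hw
    have h1 := line_deriv hf z w 0
    simp only [zero_smul, add_zero] at h1
    rw [← h1.deriv]
    have hdiff : Differentiable ℂ (fun t : ℂ => f (z + t • w)) := fun t =>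
      (line_deriv hf z w t).differentiableAt
    have := Complex.norm_deriv_le_of_forall_mem_sphere_norm_le (c := 0) (by norm_num : (0:ℝ) < 1)
      hdiff.diffContOnCl (C := M) (fun t ht => by
        apply hM
        rw [mem_closedBall, dist_eq_norm, add_sub_cancel_left, norm_smul]
        rw [mem_sphere, dist_zero_right] at ht
        rw [ht, one_mul]; exact hw)
    simpa using this
  refine ContinuousLinearMap.opNorm_le_bound _ hM0 fun w => ?_
  rcases eq_or_ne w 0 with rfl | hw
  · simp
  · have hw' : ‖w‖ ≠ 0 := norm_ne_zero_iff.mpr hw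
    have h1 := key ((‖w‖ : ℂ)⁻¹ • w) (by
      rw [norm_smul, norm_inv, Complex.norm_real, norm_norm]
      exact (inv_mul_cancel₀ hw').le)
    rw [map_smul, norm_smul, norm_inv, Complex.norm_real, norm_norm] at h1
    rw [inv_mul_le_iff₀ (by positivity)] at h1
    linarith

theorem differentiable_fderiv {f : (Fin n → ℂ) → ℂ} (hf : Differentiable ℂ f) :
    Differentiable ℂ (fderiv ℂ f) := by
  have key : ∀ v : Fin n → ℂ, Differentiable ℂ (fun z => fderiv ℂ f z v) := by
    intro v z0
    have hform : ∀ z, fderiv ℂ f z v = (2 * Real.pi * Complex.I)⁻¹ *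
        ∫ θ in (0)..(2 * Real.pi), (deriv (circleMap 0 1) θ * (1 / (circleMap 0 1 θ - 0) ^ 2)) *
          f (z + circleMap 0 1 θ • v) := by
      intro z
      have h1 := line_deriv hf z v 0
      simp only [zero_smul, add_zero] at h1
      have hdiff : Differentiable ℂ (fun t : ℂ => f (z + t • v)) := fun t =>
        (line_deriv hf z v t).differentiableAt
      have h2 := DifferentiableOn.deriv_eq_smul_circleIntegral (c := 0) (R := 1) one_pos
        hdiff.differentiableOn
      rw [h1.deriv, circleIntegral] at h2
      have h3 : (2 * (Real.pi : ℂ) * Complex.I) ≠ 0 := Complex.two_pi_I_ne_zero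
      have h4 : (∫ θ in (0)..(2 * Real.pi), (deriv (circleMap 0 1) θ *
          (1 / (circleMap 0 1 θ - 0) ^ 2)) * f (z + circleMap 0 1 θ • v))
          = (2 * (Real.pi : ℂ) * Complex.I) * fderiv ℂ f z v := by
        rw [← smul_eq_mul (2 * (Real.pi : ℂ) * Complex.I), ← h2]
        simp only [smul_eq_mul, mul_assoc]
      rw [h4, ← mul_assoc, inv_mul_cancel₀ h3, one_mul]
    have hfun : (fun z => fderiv ℂ f z v) = fun z => (2 * Real.pi * Complex.I)⁻¹ *
        ∫ θ in (0)..(2 * Real.pi), (deriv (circleMap 0 1) θ * (1 / (circleMap 0 1 θ - 0) ^ 2)) *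
          f (z + circleMap 0 1 θ • v) := funext hform
    rw [hfun]
    apply DifferentiableAt.const_mul
    -- bound for the derivative
    set ρ : ℝ := ‖z0‖ + 1 + ‖v‖ + 1 with hρ
    obtain ⟨M, hM⟩ := (isCompact_closedBall (0 : Fin n → ℂ) ρ).exists_bound_of_continuousOn
      (f := f) hf.continuous.continuousOn
    have hcoef : ∀ θ : ℝ, ‖deriv (circleMap 0 1) θ * (1 / (circleMap 0 1 θ - 0) ^ 2)‖ = 1 := by
      intro θ
      simp [norm_mul, deriv_circleMap]
    have hcirc : ∀ θ : ℝ, ‖circleMap 0 1 θ • v‖ = ‖v‖ := by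
      intro θ
      rw [norm_smul]; simp
    have hcc : Continuous fun θ : ℝ => deriv (circleMap 0 1) θ * (1 / (circleMap 0 1 θ - 0) ^ 2) := by
      have h1 : Continuous (deriv (circleMap 0 1)) := by
        have : deriv (circleMap 0 1) = fun θ => circleMap 0 1 θ * Complex.I := by
          ext θ; simp [deriv_circleMap]
        rw [this]
        exact (continuous_circleMap 0 1).mul continuous_const
      apply h1.mul
      apply Continuous.div continuous_const (((continuous_circleMap 0 1).sub continuous_const).pow 2)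
      intro θ
      have : circleMap 0 1 θ ≠ 0 := circleMap_ne_center one_ne_zero
      simpa using this
    have hshift : ∀ z : Fin n → ℂ, Continuous fun θ : ℝ => z + circleMap 0 1 θ • v := fun z =>
      continuous_const.add ((continuous_circleMap 0 1).smul continuous_const)
    have hcontF : ∀ z : Fin n → ℂ, Continuous fun θ : ℝ =>
        (deriv (circleMap 0 1) θ * (1 / (circleMap 0 1 θ - 0) ^ 2)) *
          f (z + circleMap 0 1 θ • v) := fun z => hcc.mul (hf.continuous.comp (hshift z))
    have := intervalIntegral.hasFDerivAt_integral_of_dominated_of_fderiv_le (𝕜 := ℂ)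
      (μ := volume) (a := 0) (b := 2 * Real.pi) (s := ball z0 1) (x₀ := z0)
      (F := fun z θ => (deriv (circleMap 0 1) θ * (1 / (circleMap 0 1 θ - 0) ^ 2)) *
          f (z + circleMap 0 1 θ • v))
      (F' := fun z θ => (deriv (circleMap 0 1) θ * (1 / (circleMap 0 1 θ - 0) ^ 2)) •
          fderiv ℂ f (z + circleMap 0 1 θ • v))
      (bound := fun _ => M) (ball_mem_nhds z0 one_pos)
      (Eventually.of_forall fun z => (hcontF z).aestronglyMeasurable)
      ((hcontF z0).intervalIntegrable _ _)
      (by
        have h1 : Measurable (fderiv ℂ f) := measurable_fderiv ℂ f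
        exact (hcc.measurable.smul (h1.comp (hshift z0).measurable)).aestronglyMeasurable)
      (Eventually.of_forall fun θ _ z hz => by
        rw [norm_smul, hcoef, one_mul]
        apply fderiv_le hf
        intro w hw
        apply hM
        rw [mem_closedBall, dist_zero_right, hρ]
        rw [mem_closedBall, dist_eq_norm] at hw
        rw [mem_ball, dist_eq_norm] at hz
        have e : w = (w - (z + circleMap 0 1 θ • v)) + ((z - z0) + z0 + circleMap 0 1 θ • v) := by
          abel
        rw [e]
        refine (norm_add_le _ _).trans ?_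
        have h2 : ‖(z - z0) + z0 + circleMap 0 1 θ • v‖ ≤ 1 + ‖z0‖ + ‖v‖ := by
          refine (norm_add_le _ _).trans ?_
          rw [hcirc]
          have := norm_add_le (z - z0) z0
          linarith
        linarith)
      (intervalIntegrable_const)
      (Eventually.of_forall fun θ _ z _ => by
        have h2 : HasFDerivAt f (fderiv ℂ f (z + circleMap 0 1 θ • v)) (z + circleMap 0 1 θ • v) :=
          (hf _).hasFDerivAt
        have h3 : HasFDerivAt (fun z : Fin n → ℂ => z + circleMap 0 1 θ • v)
            (ContinuousLinearMap.id ℂ _) z := (hasFDerivAt_id z).add_const _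
        have h4 := (h2.comp z h3).const_mul
          (deriv (circleMap 0 1) θ * (1 / (circleMap 0 1 θ - 0) ^ 2))
        simpa using h4)
    exact this.differentiableAt
  have hsum : fderiv ℂ f = fun z => ∑ i : Fin n, (fderiv ℂ f z (Pi.single i 1)) •
      (ContinuousLinearMap.proj (R := ℂ) (φ := fun _ : Fin n => ℂ) i) := by
    ext z w
    simp only [ContinuousLinearMap.sum_apply, ContinuousLinearMap.smul_apply,
      ContinuousLinearMap.proj_apply, smul_eq_mul]
    conv_lhs => rw [show w = ∑ i, w i • (Pi.single i (1 : ℂ) : Fin n → ℂ) by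
      ext j; simp [Finset.sum_apply, Pi.single_apply]]
    rw [map_sum]
    refine Finset.sum_congr rfl fun i _ => ?_
    rw [map_smul, smul_eq_mul, mul_comm]
  rw [hsum]
  apply Differentiable.fun_sum
  intro i _
  exact (key (Pi.single i 1)).smul_const _

end Pool.Agent.Lib.MP_db21fa_an_h84
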