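import Pool.Agent.Lib.MP_db21fa_an_h84.Defs

/-!
The Levi-Civita theorem on `ℂ ^ n`: an entire function `P` such that all `m × m` minors of
`P (x + y)` vanish is an exponential polynomial.
-/

set_option autoImplicit false

open Filter Topology

namespace Pool.Agent.Lib.MP_db21fa_an_h84

/-- generator -/
noncomputable def gen {n : ℕ} (q : MvPolynomial (Fin n) ℂ × (Fin n → ℂ)) (z : Fin n → ℂ) : ℂ :=
  MvPolynomial.eval z q.1 * Complex.exp (∑ i, q.2 i * z i)

/-- span of the generators -/
noncomputable def EP (n : ℕ) : Submodule ℂ ((Fin n → ℂ) → ℂ) :=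
  Submodule.span ℂ (Set.range (gen (n := n)))

theorem isExpPoly_of_mem {n : ℕ} {P : (Fin n → ℂ) → ℂ} (h : P ∈ EP n) : IsExpPoly P := by
  classical
  rw [EP, Finsupp.mem_span_range_iff_exists_finsupp] at h
  obtain ⟨c, hc⟩ := h
  refine ⟨c.support.image Prod.snd, fun lam =>
    ∑ q ∈ c.support.filter (fun q => q.2 = lam), MvPolynomial.C (c q) * q.1, fun z => ?_⟩
  rw [← hc, Finsupp.sum]
  rw [← Finset.sum_fiberwise_of_maps_to (s := c.support) (t := c.support.image Prod.snd)
    (g := Prod.snd) (fun q hq => Finset.mem_image_of_mem _ hq)]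
  simp only [Finset.sum_apply]
  refine Finset.sum_congr rfl fun lam _ => ?_
  rw [map_sum, Finset.sum_mul]
  refine Finset.sum_congr rfl fun q hq => ?_
  rw [Finset.mem_filter] at hq
  simp only [Pi.smul_apply, smul_eq_mul, gen, map_mul, MvPolynomial.eval_C, ← hq.2]
  ring

theorem gen_mul {n : ℕ} (q q' : MvPolynomial (Fin n) ℂ × (Fin n → ℂ)) :
    gen q * gen q' = gen (q.1 * q'.1, q.2 + q'.2) := by
  ext z
  simp only [Pi.mul_apply, gen, map_mul, Pi.add_apply, add_mul, Finset.sum_add_distrib,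
    Complex.exp_add]
  ring

theorem EP_mul {n : ℕ} {f g : (Fin n → ℂ) → ℂ} (hf : f ∈ EP n) (hg : g ∈ EP n) :
    f * g ∈ EP n := by
  have : EP n * EP n ≤ EP n := by
    rw [EP, Submodule.span_mul_span]
    apply Submodule.span_mono
    rintro _ ⟨_, ⟨q, rfl⟩, _, ⟨q', rfl⟩, rfl⟩
    exact ⟨_, (gen_mul q q').symm⟩
  exact this (Submodule.mul_mem_mul hf hg)

theorem coord_mem {n : ℕ} (i : Fin n) (k : ℕ) (χ : ℂ) :
    (fun z : Fin n → ℂ => z i ^ k * Complex.exp (χ * z i)) ∈ EP n := by
  classical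
  apply Submodule.subset_span
  refine ⟨(MvPolynomial.X i ^ k, Pi.single i χ), ?_⟩
  ext z
  simp [gen, Pi.single_apply, ite_mul]

section translate

variable {n : ℕ} {W : Submodule ℂ ((Fin n → ℂ) → ℂ)}

/-- The derivative in direction `v` preserves a finite-dimensional translation invariant space. -/
theorem deriv_mem [FiniteDimensional ℂ W] (hT : ∀ f ∈ W, ∀ a : Fin n → ℂ, (fun z => f (z + a)) ∈ W)
    (hd : ∀ f ∈ W, Differentiable ℂ f) (v : Fin n → ℂ) {f : (Fin n → ℂ) → ℂ} (hf : f ∈ W) :
    (fun z => fderiv ℂ f z v) ∈ W := by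
  have hcl : IsClosed (W : Set ((Fin n → ℂ) → ℂ)) := Submodule.closed_of_finiteDimensional W
  have hlim : Tendsto (fun (t : ℂ) => fun z => t⁻¹ • (f (z + t • v) - f z)) (𝓝[≠] 0)
      (𝓝 (fun z => fderiv ℂ f z v)) := by
    rw [tendsto_pi_nhds]
    intro z
    have h1 : HasDerivAt (fun t : ℂ => f (z + t • v)) (fderiv ℂ f z v) 0 := by
      have h2 : HasFDerivAt f (fderiv ℂ f z) (z + (0 : ℂ) • v) := by
        simpa using (hd f hf z).hasFDerivAt
      have h3 : HasDerivAt (fun t : ℂ => z + t • v) v 0 := by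
        simpa using ((hasDerivAt_id (0 : ℂ)).smul_const v).const_add z
      exact h2.comp_hasDerivAt (0 : ℂ) h3
    have := h1.tendsto_slope_zero
    simpa using this
  refine hcl.mem_of_tendsto hlim ?_
  filter_upwards with t
  have h1 : (fun z => f (z + t • v)) - f ∈ W := W.sub_mem (hT f hf (t • v)) hf
  exact W.smul_mem t⁻¹ h1

/-- The derivative as a linear map of `W`. -/
noncomputable def Dop [FiniteDimensional ℂ W]
    (hT : ∀ f ∈ W, ∀ a : Fin n → ℂ, (fun z => f (z + a)) ∈ W)
    (hd : ∀ f ∈ W, Differentiable ℂ f) (v : Fin n → ℂ) : Module.End ℂ W where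
  toFun f := ⟨fun z => fderiv ℂ f.1 z v, deriv_mem hT hd v f.2⟩
  map_add' f g := by
    ext z
    have := fderiv_add (hd f.1 f.2 z) (hd g.1 g.2 z)
    simp [this]
  map_smul' c f := by
    ext z
    have := fderiv_const_smul (hd f.1 f.2 z) c
    simp [this]

theorem gen_eig [FiniteDimensional ℂ W]
    (hT : ∀ f ∈ W, ∀ a : Fin n → ℂ, (fun z => f (z + a)) ∈ W)
    (hd : ∀ f ∈ W, Differentiable ℂ f) (v : Fin n → ℂ) (χ : ℂ) (k : ℕ) :
    ∀ f : W, ((Dop hT hd v - algebraMap ℂ _ χ) ^ k) f = 0 → ∀ (z : Fin n → ℂ) (τ : ℂ),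
      f.1 (z + τ • v) = ∑ m ∈ Finset.range k,
        τ ^ m * Complex.exp (χ * τ) *
          ((m.factorial : ℂ)⁻¹ * (((Dop hT hd v - algebraMap ℂ _ χ) ^ m) f).1 z) := by
  set D := Dop hT hd v - algebraMap ℂ (Module.End ℂ W) χ with hD
  induction k with
  | zero =>
    intro f hf z τ
    simp only [pow_zero, Module.End.one_apply] at hf
    simp [hf]
  | succ k ih =>
    intro f hf z τ
    have hf' : (D ^ k) (D f) = 0 := by
      rw [← Module.End.mul_apply, ← pow_succ]; exact hf
    have ih' := ih (D f) hf' z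
    -- u(τ) = exp(-χ τ) f(z + τ v)
    have hu : ∀ τ : ℂ, HasDerivAt (fun τ => Complex.exp (-(χ * τ)) * f.1 (z + τ • v))
        (∑ m ∈ Finset.range k, τ ^ m * ((m.factorial : ℂ)⁻¹ * ((D ^ m) (D f)).1 z)) τ := by
      intro τ
      have h2 : HasFDerivAt f.1 (fderiv ℂ f.1 (z + τ • v)) (z + τ • v) :=
        (hd f.1 f.2 _).hasFDerivAt
      have h3 : HasDerivAt (fun t : ℂ => z + t • v) v τ := by
        simpa using ((hasDerivAt_id τ).smul_const v).const_add z
      have h4 := h2.comp_hasDerivAt τ h3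
      have h5 : HasDerivAt (fun τ => Complex.exp (-(χ * τ)))
          (Complex.exp (-(χ * τ)) * (-(χ * 1))) τ :=
        (((hasDerivAt_id τ).const_mul χ).neg).cexp
      refine (h5.mul h4).congr_deriv ?_
      have h6 : (D f).1 (z + τ • v) = fderiv ℂ f.1 (z + τ • v) v - χ * f.1 (z + τ • v) := by
        simp [hD, Dop, Algebra.algebraMap_eq_smul_one]
      have h7 := ih' τ
      rw [h6] at h7
      have h8 : (∑ m ∈ Finset.range k, τ ^ m * ((m.factorial : ℂ)⁻¹ * ((D ^ m) (D f)).1 z))
          = Complex.exp (-(χ * τ)) * (fderiv ℂ f.1 (z + τ • v) v - χ * f.1 (z + τ • v)) := by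
        rw [h7, Finset.mul_sum]
        refine Finset.sum_congr rfl fun m _ => ?_
        have : Complex.exp (-(χ * τ)) * Complex.exp (χ * τ) = 1 := by
          rw [← Complex.exp_add]; simp
        calc _ = (Complex.exp (-(χ * τ)) * Complex.exp (χ * τ)) *
              (τ ^ m * ((m.factorial : ℂ)⁻¹ * ((D ^ m) (D f)).1 z)) := by rw [this, one_mul]
          _ = _ := by ring
      rw [h8]
      simp only [Function.comp_apply]
      ring
    have hw : ∀ τ : ℂ, HasDerivAt (fun τ => ∑ m ∈ Finset.range k,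
        τ ^ (m + 1) * (((m + 1).factorial : ℂ)⁻¹ * ((D ^ m) (D f)).1 z))
        (∑ m ∈ Finset.range k, τ ^ m * ((m.factorial : ℂ)⁻¹ * ((D ^ m) (D f)).1 z)) τ := by
      intro τ
      apply HasDerivAt.fun_sum
      intro m _
      refine ((hasDerivAt_pow (m + 1) τ).mul_const _).congr_deriv ?_
      have : ((m : ℂ) + 1) ≠ 0 := by exact_mod_cast Nat.succ_ne_zero m
      rw [Nat.factorial_succ]
      push_cast
      field_simp
    have hconst := is_const_of_deriv_eq_zero (𝕜 := ℂ)
      (f := fun τ => Complex.exp (-(χ * τ)) * f.1 (z + τ • v) - ∑ m ∈ Finset.range k,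
        τ ^ (m + 1) * (((m + 1).factorial : ℂ)⁻¹ * ((D ^ m) (D f)).1 z))
      (fun τ => ((hu τ).sub (hw τ)).differentiableAt)
      (fun τ => by
        have := ((hu τ).sub (hw τ)).deriv
        rw [sub_self] at this
        exact this) τ 0
    simp only [mul_zero, neg_zero, Complex.exp_zero, zero_smul, add_zero, one_mul,
      ne_eq, Nat.succ_ne_zero, not_false_eq_true, zero_pow, zero_mul, Finset.sum_const_zero,
      sub_zero] at hconst
    rw [Finset.sum_range_succ']
    have h9 : Complex.exp (χ * τ) * Complex.exp (-(χ * τ)) = 1 := by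
      rw [← Complex.exp_add]; simp
    have h10 : f.1 (z + τ • v) = Complex.exp (χ * τ) *
        (Complex.exp (-(χ * τ)) * f.1 (z + τ • v)) := by
      rw [← mul_assoc, h9, one_mul]
    rw [h10, sub_eq_iff_eq_add.mp hconst, mul_add, Finset.mul_sum, add_comm]
    congr 1
    · refine Finset.sum_congr rfl fun m _ => ?_
      rw [pow_succ D m, Module.End.mul_apply]
      ring
    · simp

/-- span of `τ ^ k exp (χ τ) g(w)` -/
noncomputable def PP (W : Submodule ℂ ((Fin n → ℂ) → ℂ)) : Submodule ℂ (ℂ → (Fin n → ℂ) → ℂ) :=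
  Submodule.span ℂ {F | ∃ (k : ℕ) (χ : ℂ) (g : (Fin n → ℂ) → ℂ), g ∈ W ∧
    F = fun τ w => τ ^ k * Complex.exp (χ * τ) * g w}

theorem shift_mem_PP [FiniteDimensional ℂ W]
    (hT : ∀ f ∈ W, ∀ a : Fin n → ℂ, (fun z => f (z + a)) ∈ W)
    (hd : ∀ f ∈ W, Differentiable ℂ f) (v : Fin n → ℂ) (f : W) :
    (fun (τ : ℂ) (w : Fin n → ℂ) => f.1 (w + τ • v)) ∈ PP W := by
  have htop := Module.End.iSup_maxGenEigenspace_eq_top (Dop hT hd v)
  have hf : f ∈ ⨆ μ, (Dop hT hd v).maxGenEigenspace μ := by rw [htop]; trivial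
  induction hf using Submodule.iSup_induction' with
  | mem χ g hg =>
    rw [Module.End.mem_maxGenEigenspace] at hg
    obtain ⟨k, hk⟩ := hg
    have hk' : ((Dop hT hd v - algebraMap ℂ _ χ) ^ k) g = 0 := by
      rw [Algebra.algebraMap_eq_smul_one]; exact hk
    have := gen_eig hT hd v χ k g hk'
    have e : (fun (τ : ℂ) (w : Fin n → ℂ) => g.1 (w + τ • v)) = ∑ m ∈ Finset.range k,
        fun (τ : ℂ) (w : Fin n → ℂ) => τ ^ m * Complex.exp (χ * τ) *
          (((m.factorial : ℂ)⁻¹ • (((Dop hT hd v - algebraMap ℂ _ χ) ^ m) g)).1 w) := by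
      ext τ w
      rw [this w τ]
      simp [Finset.sum_apply]
    rw [e]
    refine Submodule.sum_mem _ fun m _ => Submodule.subset_span ⟨m, χ, _, ?_, rfl⟩
    exact Submodule.coe_mem _
  | zero => exact (PP W).zero_mem
  | add g g' _ _ h h' => exact (PP W).add_mem h h'

/-- span of `E(z) g(w)` -/
noncomputable def FF (W : Submodule ℂ ((Fin n → ℂ) → ℂ)) :
    Submodule ℂ ((Fin n → ℂ) → (Fin n → ℂ) → ℂ) :=
  Submodule.span ℂ {F | ∃ (E : (Fin n → ℂ) → ℂ) (g : (Fin n → ℂ) → ℂ), E ∈ EP n ∧ g ∈ W ∧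
    F = fun z w => E z * g w}

theorem FF_mul {E : (Fin n → ℂ) → ℂ} (hE : E ∈ EP n) {F : (Fin n → ℂ) → (Fin n → ℂ) → ℂ}
    (hF : F ∈ FF W) : (fun z w => E z * F z w) ∈ FF W := by
  induction hF using Submodule.span_induction with
  | mem F h =>
    obtain ⟨E', g, hE', hg, rfl⟩ := h
    refine Submodule.subset_span ⟨E * E', g, EP_mul hE hE', hg, ?_⟩
    ext z w
    simp [mul_assoc]
  | zero =>
    have : (fun (z w : Fin n → ℂ) => E z * (0 : (Fin n → ℂ) → (Fin n → ℂ) → ℂ) z w) = 0 := by
      ext z w; simp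
    rw [this]
    exact (FF W).zero_mem
  | add F F' _ _ h h' =>
    have := (FF W).add_mem h h'
    convert this using 1
    ext z w
    simp [mul_add]
  | smul c F _ h =>
    have := (FF W).smul_mem c h
    convert this using 1
    ext z w
    simp only [Pi.smul_apply, smul_eq_mul]
    ring

/-- the point with coordinates outside `S` replaced by zero -/
def cut (S : Finset (Fin n)) (z : Fin n → ℂ) : Fin n → ℂ := fun i => if i ∈ S then z i else 0

theorem cut_insert {S : Finset (Fin n)} {i : Fin n} (hi : i ∉ S) (z w : Fin n → ℂ) :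
    w + cut (insert i S) z = (w + cut S z) + z i • (Pi.single i 1) := by
  ext j
  simp only [Pi.add_apply, cut, Finset.mem_insert, Pi.smul_apply, smul_eq_mul, Pi.single_apply]
  by_cases h : j = i
  · subst h; simp [hi]
  · simp [h]

theorem cut_mem_FF [FiniteDimensional ℂ W]
    (hT : ∀ f ∈ W, ∀ a : Fin n → ℂ, (fun z => f (z + a)) ∈ W)
    (hd : ∀ f ∈ W, Differentiable ℂ f) (S : Finset (Fin n)) :
    ∀ f ∈ W, (fun z w => f (w + cut S z)) ∈ FF W := by
  induction S using Finset.induction_on with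
  | empty =>
    intro f hf
    refine Submodule.subset_span ⟨1, f, ?_, hf, ?_⟩
    · refine Submodule.subset_span ⟨(1, 0), ?_⟩
      ext z; simp [gen]
    · ext z w
      have : cut ∅ z = 0 := by ext; simp [cut]
      simp [this]
  | insert i S hi ih =>
    intro f hf
    have h1 := shift_mem_PP hT hd (Pi.single i 1) ⟨f, hf⟩
    have h2 : ∀ F ∈ PP W, (fun (z w : Fin n → ℂ) => F (z i) (w + cut S z)) ∈ FF W := by
      intro F hF
      induction hF using Submodule.span_induction with
      | mem F h =>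
        obtain ⟨k, χ, g, hg, rfl⟩ := h
        exact FF_mul (coord_mem i k χ) (ih g hg)
      | zero => exact (FF W).zero_mem
      | add F F' _ _ h h' => exact (FF W).add_mem h h'
      | smul c F _ h => exact (FF W).smul_mem c h
    have h3 := h2 _ h1
    simp only [cut_insert hi]
    exact h3

theorem le_EP [FiniteDimensional ℂ W]
    (hT : ∀ f ∈ W, ∀ a : Fin n → ℂ, (fun z => f (z + a)) ∈ W)
    (hd : ∀ f ∈ W, Differentiable ℂ f) : W ≤ EP n := by
  intro f hf
  have h1 := cut_mem_FF hT hd Finset.univ f hf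
  have h2 : ∀ F ∈ FF W, (fun z => F z 0) ∈ EP n := by
    intro F hF
    induction hF using Submodule.span_induction with
    | mem F h =>
      obtain ⟨E, g, hE, hg, rfl⟩ := h
      have : (fun z => E z * g 0) = g 0 • E := by ext z; simp [mul_comm]
      rw [this]
      exact (EP n).smul_mem _ hE
    | zero => exact (EP n).zero_mem
    | add F F' _ _ h h' => exact (EP n).add_mem h h'
    | smul c F _ h => exact (EP n).smul_mem c h
  have h3 := h2 _ h1
  have h4 : (fun z => f ((0 : Fin n → ℂ) + cut Finset.univ z)) = f := by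
    ext z
    congr 1
    ext i
    simp [cut]
  rw [← h4]
  exact h3

end translate

/-- **Levi-Civita**: an entire function with vanishing `(N+1)`-minors of `P (x + y)` is an
exponential polynomial. -/
theorem levi_civita {n N : ℕ} {P : (Fin n → ℂ) → ℂ} (hP : Differentiable ℂ P)
    (hdet : ∀ x y : Fin (N + 1) → Fin n → ℂ,
      Matrix.det (Matrix.of fun i j => P (x i + y j)) = 0) : IsExpPoly P := by
  classical
  have hex : ∃ m : ℕ, ∀ x y : Fin m → Fin n → ℂ,
      Matrix.det (Matrix.of fun i j => P (x i + y j)) = 0 := ⟨N + 1, hdet⟩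
  set m := Nat.find hex with hm
  have hmz : m ≠ 0 := by
    intro h0
    have := Nat.find_spec hex
    rw [← hm] at this
    rw [h0] at this
    have h1 := this Fin.elim0 Fin.elim0
    rw [Matrix.det_isEmpty] at h1
    exact one_ne_zero h1
  obtain ⟨m', hm'⟩ := Nat.exists_eq_succ_of_ne_zero hmz
  have hall : ∀ x y : Fin (m' + 1) → Fin n → ℂ,
      Matrix.det (Matrix.of fun i j => P (x i + y j)) = 0 := by
    have := Nat.find_spec hex
    rw [← hm, hm'] at this
    exact this
  have hnot := Nat.find_min hex (m := m') (by rw [← hm, hm']; exact Nat.lt_succ_self _)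
  push Not at hnot
  obtain ⟨x, y, hxy⟩ := hnot
  set d := Matrix.det (Matrix.of fun i j => P (x i + y j)) with hd
  set W : Submodule ℂ ((Fin n → ℂ) → ℂ) :=
    Submodule.span ℂ (Set.range fun k : Fin m' => fun z => P (z + y k)) with hW
  have hfin : FiniteDimensional ℂ W := FiniteDimensional.span_of_finite ℂ (Set.finite_range _)
  have hmem : ∀ a : Fin n → ℂ, (fun z => P (z + a)) ∈ W := by
    intro a
    have h1 : ∀ z : Fin n → ℂ, P (z + a) * d + ∑ k : Fin m', P (z + y k) *
        ((-1) ^ ((k : ℕ) + 1) * Matrix.det (Matrix.of fun i j : Fin m' =>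
          P (x i + (Fin.cons a y : Fin (m' + 1) → Fin n → ℂ) (Fin.succAbove k.succ j)))) = 0 := by
      intro z
      have h2 := hall (Fin.cons z x) (Fin.cons a y)
      rw [Matrix.det_succ_row_zero, Fin.sum_univ_succ] at h2
      rw [← h2]
      congr 1
      · simp [hd, Matrix.submatrix]
      · refine Finset.sum_congr rfl fun k _ => ?_
        simp only [Matrix.of_apply, Fin.cons_zero, Fin.cons_succ, Fin.val_succ, Matrix.submatrix]
        ring
    have h3 : (fun z => P (z + a)) = ∑ k : Fin m', (-(d⁻¹) *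
        ((-1) ^ ((k : ℕ) + 1) * Matrix.det (Matrix.of fun i j : Fin m' =>
          P (x i + (Fin.cons a y : Fin (m' + 1) → Fin n → ℂ) (Fin.succAbove k.succ j))))) •
          fun z => P (z + y k) := by
      ext z
      have h4 := h1 z
      simp only [Finset.sum_apply, Pi.smul_apply, smul_eq_mul]
      have h5 : P (z + a) = -(d⁻¹) * ∑ k : Fin m', P (z + y k) *
        ((-1) ^ ((k : ℕ) + 1) * Matrix.det (Matrix.of fun i j : Fin m' =>
          P (x i + (Fin.cons a y : Fin (m' + 1) → Fin n → ℂ) (Fin.succAbove k.succ j)))) := by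
        rw [← eq_neg_iff_add_eq_zero] at h4
        have h6 : P (z + a) = d⁻¹ * (P (z + a) * d) := by field_simp
        rw [h6, h4]; ring
      rw [h5, Finset.mul_sum]
      refine Finset.sum_congr rfl fun k _ => ?_
      ring
    rw [h3]
    exact Submodule.sum_mem _ fun k _ => Submodule.smul_mem _ _ (Submodule.subset_span ⟨k, rfl⟩)
  have hT : ∀ f ∈ W, ∀ a : Fin n → ℂ, (fun z => f (z + a)) ∈ W := by
    intro f hf a
    induction hf using Submodule.span_induction with
    | mem f h =>
      obtain ⟨k, rfl⟩ := h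
      have := hmem (a + y k)
      simpa [add_assoc] using this
    | zero => exact W.zero_mem
    | add f f' _ _ h h' => exact W.add_mem h h'
    | smul c f _ h => exact W.smul_mem c h
  have hdiff : ∀ f ∈ W, Differentiable ℂ f := by
    intro f hf
    induction hf using Submodule.span_induction with
    | mem f h =>
      obtain ⟨k, rfl⟩ := h
      exact hP.comp (differentiable_id.add_const _)
    | zero => exact differentiable_const 0
    | add f f' _ _ h h' => exact h.add h'
    | smul c f _ h => exact h.const_smul c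
  have hPW : P ∈ W := by simpa using hmem 0
  exact isExpPoly_of_mem (le_EP hT hdiff hPW)

end Pool.Agent.Lib.MP_db21fa_an_h84
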