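import Mathlib

/-!
Definitions: exponential polynomials on `ℂ ^ n` and the exponential family.
-/

set_option autoImplicit false

namespace Pool.Agent.Lib.MP_db21fa_an_h84

/-- Exponential polynomials on `ℂ ^ n`: finite sums of `p_λ(z) e^{λ·z}`. -/
def IsExpPoly {n : ℕ} (P : (Fin n → ℂ) → ℂ) : Prop :=
  ∃ (Λ : Finset (Fin n → ℂ)) (p : (Fin n → ℂ) → MvPolynomial (Fin n) ℂ),
    ∀ z, P z = ∑ lam ∈ Λ, MvPolynomial.eval z (p lam) * Complex.exp (∑ i, lam i * z i)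

/-- `h = e^{A} P₁` and `b = e^{A} P₂` with one quadratic form `A` and exponential polynomials
`P₁`, `P₂`. -/
def ExpFamily {n : ℕ} (h b : (Fin n → ℂ) → ℂ) : Prop :=
  ∃ (A : Matrix (Fin n) (Fin n) ℂ) (P₁ P₂ : (Fin n → ℂ) → ℂ), IsExpPoly P₁ ∧ IsExpPoly P₂ ∧
    ∀ z, h z = Complex.exp (∑ i, ∑ j, A i j * z i * z j) * P₁ z ∧
      b z = Complex.exp (∑ i, ∑ j, A i j * z i * z j) * P₂ z

end Pool.Agent.Lib.MP_db21fa_an_h84
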