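import Pool.Agent.Lib.MP_db21fa_an_h84.LeviCivita

/-!
A nonzero exponential polynomial on `ℂ ^ n` has zero-free balls of arbitrarily large radius.
-/

set_option autoImplicit false

open Metric Filter Topology

namespace Pool.Agent.Lib.MP_db21fa_an_h84

variable {n : ℕ}

theorem eval_homog {p : MvPolynomial (Fin n) ℂ} {m : ℕ} (hp : p.IsHomogeneous m) (t : ℂ)
    (v : Fin n → ℂ) : MvPolynomial.eval (t • v) p = t ^ m * MvPolynomial.eval v p := by
  rw [MvPolynomial.eval_eq', MvPolynomial.eval_eq', Finset.mul_sum]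
  refine Finset.sum_congr rfl fun d hd => ?_
  have hd' := hp (MvPolynomial.mem_support_iff.mp hd)
  have h1 : ∑ i, d i = m := by
    rw [← hd']
    simp [Finsupp.weight_apply, Finsupp.sum_fintype]
  have h2 : ∏ i, (t • v) i ^ d i = t ^ m * ∏ i, v i ^ d i := by
    simp only [Pi.smul_apply, smul_eq_mul, mul_pow, Finset.prod_mul_distrib]
    rw [Finset.prod_pow_eq_pow_sum, h1]
  rw [h2]; ring

theorem poly_growth (p : MvPolynomial (Fin n) ℂ) :
    ∃ (C : ℝ) (D : ℕ), 0 ≤ C ∧ ∀ z : Fin n → ℂ, ‖MvPolynomial.eval z p‖ ≤ C * (1 + ‖z‖) ^ D := by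
  induction p using MvPolynomial.induction_on with
  | C a => exact ⟨‖a‖, 0, norm_nonneg _, fun z => by simp⟩
  | add p q hp hq =>
    obtain ⟨C, D, hC, h⟩ := hp
    obtain ⟨C', D', hC', h'⟩ := hq
    refine ⟨C + C', max D D', by positivity, fun z => ?_⟩
    have h1 : (1 : ℝ) ≤ 1 + ‖z‖ := by linarith [norm_nonneg z]
    rw [map_add]
    refine (norm_add_le _ _).trans ?_
    rw [add_mul]
    apply add_le_add
    · exact (h z).trans (mul_le_mul_of_nonneg_left (pow_le_pow_right₀ h1 (le_max_left _ _)) hC)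
    · exact (h' z).trans (mul_le_mul_of_nonneg_left (pow_le_pow_right₀ h1 (le_max_right _ _)) hC')
  | mul_X p i hp =>
    obtain ⟨C, D, hC, h⟩ := hp
    refine ⟨C, D + 1, hC, fun z => ?_⟩
    rw [map_mul, MvPolynomial.eval_X, norm_mul, pow_succ, ← mul_assoc]
    have h1 : ‖z i‖ ≤ 1 + ‖z‖ := by linarith [norm_le_pi_norm z i]
    exact mul_le_mul (h z) h1 (norm_nonneg _) (by positivity)

/-- the linear form `∑ λ_i z_i` -/
noncomputable def lin (lam z : Fin n → ℂ) : ℂ := ∑ i, lam i * z i

theorem lin_bound (lam : Fin n → ℂ) (z : Fin n → ℂ) : ‖lin lam z‖ ≤ (∑ i, ‖lam i‖) * ‖z‖ := by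
  unfold lin
  refine (norm_sum_le _ _).trans ?_
  rw [Finset.sum_mul]
  refine Finset.sum_le_sum fun i _ => ?_
  rw [norm_mul]
  exact mul_le_mul_of_nonneg_left (norm_le_pi_norm z i) (norm_nonneg _)

theorem lin_add (lam z w : Fin n → ℂ) : lin lam (z + w) = lin lam z + lin lam w := by
  simp [lin, mul_add, Finset.sum_add_distrib]

theorem lin_smul (lam : Fin n → ℂ) (t : ℂ) (w : Fin n → ℂ) :
    lin lam (t • w) = t * lin lam w := by
  simp only [lin, Pi.smul_apply, smul_eq_mul, Finset.mul_sum]
  exact Finset.sum_congr rfl fun i _ => by ring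

theorem continuous_lin (lam : Fin n → ℂ) : Continuous (lin lam) := by
  unfold lin; fun_prop

/-- polynomial along a ray: normalised limit is the top homogeneous component -/
theorem ray_limit {p : MvPolynomial (Fin n) ℂ} {d : ℕ}
    (hd : ∀ m, d < m → MvPolynomial.homogeneousComponent m p = 0) (v : Fin n → ℂ) {R : ℝ}
    {w : ℕ → Fin n → ℂ} (hw : ∀ t, ‖w t‖ ≤ R) :
    Tendsto (fun t : ℕ => MvPolynomial.eval ((t : ℂ) • v + w t) p / (t : ℂ) ^ d) atTop
      (𝓝 (MvPolynomial.eval v (MvPolynomial.homogeneousComponent d p))) := by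
  have hp : p = ∑ m ∈ Finset.range (d + 1), MvPolynomial.homogeneousComponent m p := by
    have h1 := MvPolynomial.sum_homogeneousComponent p
    have h2 : ∑ m ∈ Finset.range (d + 1), MvPolynomial.homogeneousComponent m p
        = ∑ m ∈ Finset.range (max (d + 1) (p.totalDegree + 1)),
          MvPolynomial.homogeneousComponent m p := by
      apply Finset.sum_subset (Finset.range_mono (le_max_left _ _))
      intro m _ hm
      rw [Finset.mem_range, not_lt] at hm
      exact hd m hm
    have h3 : ∑ m ∈ Finset.range (p.totalDegree + 1), MvPolynomial.homogeneousComponent m p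
        = ∑ m ∈ Finset.range (max (d + 1) (p.totalDegree + 1)),
          MvPolynomial.homogeneousComponent m p := by
      apply Finset.sum_subset (Finset.range_mono (le_max_right _ _))
      intro m _ hm
      rw [Finset.mem_range, not_lt] at hm
      exact MvPolynomial.homogeneousComponent_eq_zero _ _ hm
    rw [h2, ← h3, h1]
  have hwt : Tendsto (fun t : ℕ => ((t : ℂ))⁻¹ • w t) atTop (𝓝 0) := by
    apply squeeze_zero_norm' (a := fun t : ℕ => ((t : ℝ))⁻¹ * R)
    · filter_upwards with t
      rw [norm_smul, norm_inv, Complex.norm_natCast]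
      exact mul_le_mul_of_nonneg_left (hw t) (by positivity)
    · have := (tendsto_inv_atTop_nhds_zero_nat (𝕜 := ℝ)).mul_const R
      simpa using this
  have hterm : ∀ m ∈ Finset.range (d + 1), Tendsto (fun t : ℕ => ((t : ℂ)⁻¹) ^ (d - m) *
      MvPolynomial.eval (v + (t : ℂ)⁻¹ • w t) (MvPolynomial.homogeneousComponent m p)) atTop
      (𝓝 ((0 : ℂ) ^ (d - m) * MvPolynomial.eval v (MvPolynomial.homogeneousComponent m p))) := by
    intro m _
    apply Tendsto.mul
    · exact (tendsto_inv_atTop_nhds_zero_nat (𝕜 := ℂ)).pow (d - m)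
    · have h1 : Tendsto (fun t : ℕ => v + (t : ℂ)⁻¹ • w t) atTop (𝓝 v) := by
        simpa using hwt.const_add v
      exact ((MvPolynomial.continuous_eval _).tendsto v).comp h1
  have hsum := tendsto_finsetSum _ hterm
  have hval : ∑ m ∈ Finset.range (d + 1),
      (0 : ℂ) ^ (d - m) * MvPolynomial.eval v (MvPolynomial.homogeneousComponent m p)
      = MvPolynomial.eval v (MvPolynomial.homogeneousComponent d p) := by
    rw [Finset.sum_eq_single d]
    · simp
    · intro m hm hmd
      rw [Finset.mem_range] at hm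
      rw [zero_pow (by omega), zero_mul]
    · intro h; exact absurd (Finset.self_mem_range_succ d) h
  rw [hval] at hsum
  refine hsum.congr' ?_
  filter_upwards [eventually_gt_atTop 0] with t ht
  have ht0 : (t : ℂ) ≠ 0 := by exact_mod_cast ht.ne'
  have e1 : (t : ℂ) • v + w t = (t : ℂ) • (v + (t : ℂ)⁻¹ • w t) := by
    rw [smul_add, smul_smul, mul_inv_cancel₀ ht0, one_smul]
  conv_rhs => rw [e1, hp]
  rw [map_sum, Finset.sum_div]
  refine Finset.sum_congr rfl fun m hm => ?_
  rw [Finset.mem_range] at hm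
  rw [eval_homog (MvPolynomial.homogeneousComponent_isHomogeneous m p)]
  have : (t : ℂ) ^ d = (t : ℂ) ^ m * (t : ℂ) ^ (d - m) := by
    rw [← pow_add]; congr 1; omega
  rw [this, inv_pow]
  field_simp

theorem exists_ball_ne_zero {P : (Fin n → ℂ) → ℂ} (hP : IsExpPoly P) (h0 : ∃ z, P z ≠ 0) (R : ℝ) :
    ∃ s : Fin n → ℂ, ∀ z ∈ ball s R, P z ≠ 0 := by
  classical
  obtain ⟨Λ, p, hPz⟩ := hP
  set Λ' := Λ.filter (fun lam => p lam ≠ 0) with hΛ'
  have hPz' : ∀ z, P z = ∑ lam ∈ Λ', MvPolynomial.eval z (p lam) * Complex.exp (lin lam z) := by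
    intro z
    rw [hPz z, hΛ', Finset.sum_filter]
    refine Finset.sum_congr rfl fun lam _ => ?_
    by_cases h : p lam = 0
    · simp [h]
    · simp [h, lin]
  have hne : Λ'.Nonempty := by
    rw [Finset.nonempty_iff_ne_empty]
    intro he
    obtain ⟨z, hz⟩ := h0
    apply hz
    rw [hPz' z, he, Finset.sum_empty]
  obtain ⟨ls, hls, hmax⟩ := Λ'.exists_max_image (fun lam => ∑ i, ‖lam i‖ ^ 2) hne
  have hps : p ls ≠ 0 := (Finset.mem_filter.mp hls).2
  -- the cone of good directions
  set U : Set (Fin n → ℂ) := {v | ∀ lam ∈ Λ', lam ≠ ls → (lin lam v).re < (lin ls v).re} with hU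
  have hUo : IsOpen U := by
    have : U = ⋂ lam ∈ Λ', {v | lam ≠ ls → (lin lam v).re < (lin ls v).re} := by
      ext v; simp [hU]
    rw [this]
    apply isOpen_biInter_finset
    intro lam _
    by_cases h : lam = ls
    · simp [h]
    · simp only [ne_eq, h, not_false_eq_true, forall_const]
      exact isOpen_lt (Complex.continuous_re.comp (continuous_lin lam))
        (Complex.continuous_re.comp (continuous_lin ls))
  have hv0 : (fun i => (starRingEnd ℂ) (ls i)) ∈ U := by
    intro lam hlam hne'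
    have h1 : (lin ls (fun i => (starRingEnd ℂ) (ls i))).re = ∑ i, ‖ls i‖ ^ 2 := by
      simp only [lin, Complex.re_sum]
      refine Finset.sum_congr rfl fun i _ => ?_
      rw [Complex.mul_conj, Complex.ofReal_re, Complex.normSq_eq_norm_sq]
    have h2 : ∀ i, 2 * (lam i * (starRingEnd ℂ) (ls i)).re
        = ‖lam i‖ ^ 2 + ‖ls i‖ ^ 2 - ‖lam i - ls i‖ ^ 2 := by
      intro i
      simp only [← Complex.normSq_eq_norm_sq, Complex.normSq_apply, Complex.mul_re,
        Complex.conj_re, Complex.conj_im, Complex.sub_re, Complex.sub_im]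
      ring
    have h3 : 2 * (lin lam (fun i => (starRingEnd ℂ) (ls i))).re
        = ∑ i, ‖lam i‖ ^ 2 + ∑ i, ‖ls i‖ ^ 2 - ∑ i, ‖lam i - ls i‖ ^ 2 := by
      simp only [lin, Complex.re_sum, Finset.mul_sum, h2, Finset.sum_add_distrib,
        Finset.sum_sub_distrib]
    have h4 : 0 < ∑ i, ‖lam i - ls i‖ ^ 2 := by
      obtain ⟨i, hi⟩ := Function.ne_iff.mp hne'
      apply Finset.sum_pos' (fun i _ => by positivity)
      exact ⟨i, Finset.mem_univ _, by
        have : ‖lam i - ls i‖ ≠ 0 := norm_ne_zero_iff.mpr (sub_ne_zero.mpr hi)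
        positivity⟩
    have h5 := hmax lam hlam
    rw [h1]
    linarith
  -- degree
  have hex : ∃ m ∈ Finset.range ((p ls).totalDegree + 1),
      MvPolynomial.homogeneousComponent m (p ls) ≠ 0 := by
    by_contra hcon
    push Not at hcon
    apply hps
    rw [← MvPolynomial.sum_homogeneousComponent (p ls)]
    exact Finset.sum_eq_zero hcon
  obtain ⟨d, hdm, hdmax⟩ := (((Finset.range ((p ls).totalDegree + 1)).filter
    (fun m => MvPolynomial.homogeneousComponent m (p ls) ≠ 0))).exists_max_image id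
    (by
      obtain ⟨m, hm, hm'⟩ := hex
      exact ⟨m, Finset.mem_filter.mpr ⟨hm, hm'⟩⟩)
  have hd0 : MvPolynomial.homogeneousComponent d (p ls) ≠ 0 := (Finset.mem_filter.mp hdm).2
  have hdbig : ∀ m, d < m → MvPolynomial.homogeneousComponent m (p ls) = 0 := by
    intro m hm
    by_contra hcon
    rcases Nat.lt_or_ge (p ls).totalDegree m with h | h
    · exact hcon (MvPolynomial.homogeneousComponent_eq_zero _ _ h)
    · have := hdmax m (Finset.mem_filter.mpr ⟨Finset.mem_range.mpr (by omega), hcon⟩)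
      simp only [id] at this
      omega
  -- a good direction with nonvanishing top component
  obtain ⟨v, hvU, hv⟩ : ∃ v ∈ U, MvPolynomial.eval v
      (MvPolynomial.homogeneousComponent d (p ls)) ≠ 0 := by
    by_contra hcon
    push Not at hcon
    apply hd0
    obtain ⟨ε, hε, hball⟩ := Metric.isOpen_iff.mp hUo _ hv0
    apply MvPolynomial.funext_set (fun i => ball ((starRingEnd ℂ) (ls i)) ε)
    · intro i
      exact (infinite_of_mem_nhds _ (ball_mem_nhds _ hε))
    · intro x hx
      rw [map_zero]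
      apply hcon
      apply hball
      rw [← ball_pi _ hε] at hx
      exact hx
  by_contra hcon
  push Not at hcon
  choose z hz hPzero using fun t : ℕ => hcon ((t : ℂ) • v)
  set w : ℕ → Fin n → ℂ := fun t => z t - (t : ℂ) • v with hw
  have hwR : ∀ t, ‖w t‖ ≤ R := fun t => by
    have := hz t
    rw [mem_ball, dist_eq_norm] at this
    exact this.le
  have hR0 : 0 ≤ R := (norm_nonneg _).trans (hwR 0)
  have hzw : ∀ t : ℕ, z t = (t : ℂ) • v + w t := fun t => by simp [hw]
  have hmain := ray_limit hdbig v hwR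
  have hothers : ∀ lam ∈ Λ'.erase ls, Tendsto (fun t : ℕ =>
      MvPolynomial.eval (z t) (p lam) * Complex.exp (lin lam (z t) - lin ls (z t)) / (t : ℂ) ^ d)
      atTop (𝓝 0) := by
    intro lam hlam
    rw [Finset.mem_erase] at hlam
    obtain ⟨C, D, hC, hgr⟩ := poly_growth (p lam)
    set η : ℝ := (lin ls v).re - (lin lam v).re with hη
    have hηpos : 0 < η := by rw [hη]; linarith [hvU lam hlam.2 hlam.1]
    set K : ℝ := 1 + ‖v‖ + R with hK
    have hK0 : 0 ≤ K := by positivity
    set B : ℝ := ((∑ i, ‖lam i‖) + (∑ i, ‖ls i‖)) * R with hB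
    apply squeeze_zero_norm' (a := fun t : ℕ => (C * K ^ D * Real.exp B / η ^ D) *
      ((η * (t : ℝ)) ^ D * Real.exp (-(η * (t : ℝ)))))
    · filter_upwards [eventually_ge_atTop 1] with t ht
      have ht1 : (1 : ℝ) ≤ t := by exact_mod_cast ht
      have hzn : 1 + ‖z t‖ ≤ K * t := by
        rw [hzw t]
        have h1 := norm_add_le ((t : ℂ) • v) (w t)
        rw [norm_smul, Complex.norm_natCast] at h1
        have h2 := hwR t
        have h3 : K * t = t + t * ‖v‖ + R * t := by rw [hK]; ring
        have h4 : R ≤ R * t := le_mul_of_one_le_right hR0 ht1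
        rw [h3]; linarith
      have h1 : ‖MvPolynomial.eval (z t) (p lam)‖ ≤ C * (K * t) ^ D :=
        (hgr _).trans (mul_le_mul_of_nonneg_left
          (pow_le_pow_left₀ (by positivity) hzn D) hC)
      have h2 : ‖Complex.exp (lin lam (z t) - lin ls (z t))‖
          ≤ Real.exp B * Real.exp (-(η * t)) := by
        rw [Complex.norm_exp, ← Real.exp_add]
        apply Real.exp_le_exp.mpr
        rw [hzw t, lin_add, lin_add, lin_smul, lin_smul]
        simp only [Complex.sub_re, Complex.add_re, Complex.mul_re, Complex.natCast_re,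
          Complex.natCast_im, zero_mul, sub_zero]
        have h3 : (lin lam (w t)).re ≤ (∑ i, ‖lam i‖) * R :=
          (Complex.re_le_norm _).trans ((lin_bound _ _).trans
            (mul_le_mul_of_nonneg_left (hwR t) (by positivity)))
        have h4 : -(lin ls (w t)).re ≤ (∑ i, ‖ls i‖) * R :=
          (neg_le_abs _).trans ((Complex.abs_re_le_norm _).trans ((lin_bound _ _).trans
            (mul_le_mul_of_nonneg_left (hwR t) (by positivity))))
        rw [hB, hη, add_mul]
        nlinarith
      have h3 : (1 : ℝ) ≤ ‖(t : ℂ) ^ d‖ := by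
        rw [norm_pow, Complex.norm_natCast]
        exact one_le_pow₀ ht1
      rw [norm_div, norm_mul]
      calc ‖MvPolynomial.eval (z t) (p lam)‖ * ‖Complex.exp (lin lam (z t) - lin ls (z t))‖ /
            ‖(t : ℂ) ^ d‖
          ≤ ‖MvPolynomial.eval (z t) (p lam)‖ *
            ‖Complex.exp (lin lam (z t) - lin ls (z t))‖ :=
              div_le_self (by positivity) h3
        _ ≤ (C * (K * t) ^ D) * (Real.exp B * Real.exp (-(η * t))) :=
              mul_le_mul h1 h2 (norm_nonneg _) (by positivity)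
        _ = (C * K ^ D * Real.exp B / η ^ D) * ((η * (t : ℝ)) ^ D * Real.exp (-(η * (t : ℝ)))) := by
              rw [mul_pow, mul_pow]; field_simp
    · have h1 : Tendsto (fun t : ℕ => η * (t : ℝ)) atTop atTop :=
        tendsto_natCast_atTop_atTop.const_mul_atTop hηpos
      have h2 := (Real.tendsto_pow_mul_exp_neg_atTop_nhds_zero D).comp h1
      have h3 := h2.const_mul (C * K ^ D * Real.exp B / η ^ D)
      simpa using h3
  have htot := hmain.add (tendsto_finsetSum _ hothers)
  simp only [Finset.sum_const_zero, add_zero] at htot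
  have hzero : ∀ t : ℕ, MvPolynomial.eval ((t : ℂ) • v + w t) (p ls) / (t : ℂ) ^ d +
      ∑ lam ∈ Λ'.erase ls, MvPolynomial.eval (z t) (p lam) *
        Complex.exp (lin lam (z t) - lin ls (z t)) / (t : ℂ) ^ d = 0 := by
    intro t
    rw [← hzw t, ← Finset.sum_div, ← add_div]
    have h1 := hPz' (z t)
    rw [hPzero t, ← Finset.add_sum_erase _ _ hls] at h1
    have h2 : (MvPolynomial.eval (z t) (p ls) + ∑ lam ∈ Λ'.erase ls,
        MvPolynomial.eval (z t) (p lam) * Complex.exp (lin lam (z t) - lin ls (z t))) *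
          Complex.exp (lin ls (z t)) = 0 := by
      rw [add_mul, Finset.sum_mul, h1]
      congr 1
      refine Finset.sum_congr rfl fun lam _ => ?_
      rw [mul_assoc, ← Complex.exp_add]
      congr 2
      ring
    rcases mul_eq_zero.mp h2 with h | h
    · rw [h, zero_div]
    · exact absurd h (Complex.exp_ne_zero _)
  have : Tendsto (fun _ : ℕ => (0 : ℂ)) atTop
      (𝓝 (MvPolynomial.eval v (MvPolynomial.homogeneousComponent d (p ls)))) :=
    htot.congr hzero
  exact hv (tendsto_nhds_unique this tendsto_const_nhds)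

end Pool.Agent.Lib.MP_db21fa_an_h84
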