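import Pool.Agent.Lib.MP_db21fa_an_h84.Limit

/-!
The exponential family among the solutions of `h (x - y) b (x + y) = ∑ f_j (x) g_j (y)`.
-/

set_option autoImplicit false

open Metric Filter Topology

namespace Pool.Agent.Lib.MP_db21fa_an_h84

variable {n : ℕ}

/-- A finite sum of products has vanishing minors of larger size. -/
theorem mc_of_sum {N : ℕ} {h b : (Fin n → ℂ) → ℂ} {f g : Fin N → (Fin n → ℂ) → ℂ}
    (heq : ∀ x y, h (x - y) * b (x + y) = ∑ j, f j x * g j y) : MC N h b := by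
  intro x y
  by_contra hdet
  have hM : (Matrix.of fun i j => h (x i - y j) * b (x i + y j)) =
      (Matrix.of fun (i : Fin (N + 1)) (k : Fin N) => f k (x i)) *
        (Matrix.of fun (k : Fin N) (j : Fin (N + 1)) => g k (y j)) := by
    ext i j
    simp only [Matrix.of_apply, Matrix.mul_apply]
    exact heq (x i) (y j)
  have hunit : IsUnit (Matrix.of fun i j => h (x i - y j) * b (x i + y j)) := by
    rw [Matrix.isUnit_iff_isUnit_det]
    exact isUnit_iff_ne_zero.mpr hdet
  have h1 := Matrix.rank_of_isUnit _ hunit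
  rw [hM] at h1
  have h2 := Matrix.rank_mul_le_left
    (Matrix.of fun (i : Fin (N + 1)) (k : Fin N) => f k (x i))
    (Matrix.of fun (k : Fin N) (j : Fin (N + 1)) => g k (y j))
  have h3 := Matrix.rank_le_width (Matrix.of fun (i : Fin (N + 1)) (k : Fin N) => f k (x i))
  rw [h1, Fintype.card_fin] at h2
  omega

theorem expFamily_symm {h b : (Fin n → ℂ) → ℂ} (H : ExpFamily h b) : ExpFamily b h := by
  obtain ⟨A, P₁, P₂, h1, h2, h3⟩ := H
  exact ⟨A, P₂, P₁, h2, h1, fun z => ⟨(h3 z).2, (h3 z).1⟩⟩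

theorem bigBalls_of_expFamily {h b : (Fin n → ℂ) → ℂ} (H : ExpFamily h b)
    (h0 : ∃ z, h z ≠ 0) : BigBalls h := by
  obtain ⟨A, P₁, P₂, h1, _, h3⟩ := H
  obtain ⟨z, hz⟩ := h0
  intro R
  obtain ⟨s, hs⟩ := exists_ball_ne_zero h1 ⟨z, by
    rw [(h3 z).1] at hz
    exact right_ne_zero_of_mul hz⟩ R
  exact ⟨s, fun w hw => by
    rw [(h3 w).1]
    exact mul_ne_zero (Complex.exp_ne_zero _) (hs w hw)⟩

theorem expFamily_of_bigBalls {N : ℕ} {h b : (Fin n → ℂ) → ℂ}
    (hh : Differentiable ℂ h) (hb : Differentiable ℂ b) (H : MC N h b)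
    (hh0 : ∃ t, h t ≠ 0) (hb0 : ∃ t, b t ≠ 0) (hbig : BigBalls h) : ExpFamily h b := by
  obtain ⟨q, hqf, h1, h2⟩ := main_step hh hb H hh0 hb0 hbig
  refine ⟨fun i j => pol q i j / 2, _, _, h1, h2, fun z => ?_⟩
  have e : ∑ i, ∑ j, pol q i j / 2 * z i * z j = q z / 2 := by
    rw [hqf z, Finset.sum_div]
    refine Finset.sum_congr rfl fun i _ => ?_
    rw [Finset.sum_div]
    exact Finset.sum_congr rfl fun j _ => by ring
  rw [e]
  have h3 : Complex.exp (q z / 2) * Complex.exp (-(q z / 2)) = 1 := by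
    rw [← Complex.exp_add]; simp
  constructor
  · calc h z = h z * (Complex.exp (q z / 2) * Complex.exp (-(q z / 2))) := by rw [h3, mul_one]
      _ = _ := by ring
  · calc b z = b z * (Complex.exp (q z / 2) * Complex.exp (-(q z / 2))) := by rw [h3, mul_one]
      _ = _ := by ring

end Pool.Agent.Lib.MP_db21fa_an_h84
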