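import Mathlib

/-!
An entire function of minimal type (order two) on `ℂ` has zero-free discs of arbitrarily large
radius (Jensen).
-/

set_option autoImplicit false

open Metric Filter Topology MeromorphicOn

namespace Pool.Agent.Lib.MP_db21fa_an_h84

theorem card_zeros_le {g : ℂ → ℂ} (hg : Differentiable ℂ g) {c : ℂ} (hc : g c ≠ 0) {r M : ℝ}
    (hr : 0 < r) (hM : 1 ≤ M) (hb : ∀ z ∈ sphere c (2 * r), ‖g z‖ ≤ M) (S : Finset ℂ)
    (hS : ∀ z ∈ S, z ∈ closedBall c r ∧ g z = 0) :
    (S.card : ℝ) ≤ Real.log (M / ‖g c‖) / Real.log 2 := by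
  have hga : ∀ s : Set ℂ, AnalyticOnNhd ℂ g s := fun s z _ => hg.analyticAt z
  have habs : |2 * r| = 2 * r := abs_of_pos (by positivity)
  have habs' : |r| = r := abs_of_pos hr
  have h1 := AnalyticOnNhd.sum_divisor_le (f := g) (c := c) (r := r) (R := 2 * r) (M := M)
    (by rw [habs']; exact hr) (by rw [habs, habs']; linarith) hM (hga _) hc
    (by rw [habs]; exact hb)
  have e : (2 * r) / r = 2 := by field_simp
  rw [e, habs'] at h1
  refine le_trans ?_ h1
  have hfin := (divisor g (closedBall c r)).finiteSupport (isCompact_closedBall c r)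
  have hnt : ∀ z, analyticOrderAt g z ≠ ⊤ := by
    intro z htop
    have h2 : ∀ w ∈ (Set.univ : Set ℂ), g w = 0 := by
      have := (hga Set.univ).eqOn_zero_of_preconnected_of_eventuallyEq_zero
        isPreconnected_univ (Set.mem_univ z) (analyticOrderAt_eq_top.mp htop)
      exact this
    exact hc (h2 c (Set.mem_univ c))
  have hpos : ∀ z ∈ S, 1 ≤ divisor g (closedBall c r) z := by
    intro z hz
    obtain ⟨hz1, hz2⟩ := hS z hz
    rw [AnalyticOnNhd.divisor_apply (hga _) hz1]
    have h3 : analyticOrderAt g z ≠ 0 := by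
      rw [Ne, (hg.analyticAt z).analyticOrderAt_eq_zero]
      simpa using hz2
    obtain ⟨k, hk⟩ := ENat.ne_top_iff_exists.mp (hnt z)
    rw [← hk] at h3 ⊢
    have hk0 : k ≠ 0 := by exact_mod_cast h3
    simp only [ENat.map_natCast, WithTop.untop₀_coe]
    exact_mod_cast Nat.one_le_iff_ne_zero.mpr hk0
  have hsum : (S.card : ℤ) ≤ ∑ᶠ u, divisor g (closedBall c r) u := by
    rw [finsum_eq_sum_of_support_subset _ (s := hfin.toFinset ∪ S)
      (by intro u hu; simp only [Finset.coe_union, Set.mem_union]; left; simpa using hu)]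
    calc (S.card : ℤ) = ∑ _z ∈ S, (1 : ℤ) := by simp
      _ ≤ ∑ z ∈ S, divisor g (closedBall c r) z := Finset.sum_le_sum hpos
      _ ≤ ∑ z ∈ hfin.toFinset ∪ S, divisor g (closedBall c r) z := by
          apply Finset.sum_le_sum_of_subset_of_nonneg Finset.subset_union_right
          intro u _ _
          exact AnalyticOnNhd.divisor_nonneg (hga _) u
  exact_mod_cast hsum

theorem bigBalls_of_minimal {g : ℂ → ℂ} (hg : Differentiable ℂ g) (h0 : ∃ z, g z ≠ 0)
    (hmin : ∀ ε : ℝ, 0 < ε → ∃ C : ℝ, ∀ z, ‖g z‖ ≤ C * Real.exp (ε * ‖z‖ ^ 2)) (R : ℝ) :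
    ∃ s : ℂ, ∀ z ∈ ball s R, g z ≠ 0 := by
  classical
  by_contra hcon
  push Not at hcon
  obtain ⟨c, hc⟩ := h0
  have hR : 0 < R := by
    obtain ⟨z, hz, _⟩ := hcon 0
    exact pos_of_mem_ball hz
  set L := Real.log 2 with hL
  have hLpos : 0 < L := Real.log_pos (by norm_num)
  set ε : ℝ := L / (256 * R ^ 2) with hε
  have hεpos : 0 < ε := by positivity
  obtain ⟨C0, hC0⟩ := hmin ε hεpos
  set C : ℝ := max C0 1 with hCdef
  have hC1 : 1 ≤ C := le_max_right _ _
  have hC : ∀ z, ‖g z‖ ≤ C * Real.exp (ε * ‖z‖ ^ 2) := fun z =>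
    (hC0 z).trans (mul_le_mul_of_nonneg_right (le_max_left _ _) (Real.exp_pos _).le)
  -- zeros on the grid
  choose ζ hζ1 hζ2 using fun s : ℂ => hcon s
  have key : ∀ m : ℕ, 1 ≤ m → ((m : ℝ) ^ 2) * L ≤
      Real.log C + ε * (2 * ‖c‖ ^ 2 + 128 * R ^ 2 * (m : ℝ) ^ 2) - Real.log ‖g c‖ := by
    intro m hm
    have hm1 : (1 : ℝ) ≤ m := by exact_mod_cast hm
    set pt : ℕ × ℕ → ℂ := fun p => c + 2 * R * ((p.1 : ℂ) + (p.2 : ℂ) * Complex.I) with hpt
    have hinj : Function.Injective (fun p : ℕ × ℕ => ζ (pt p)) := by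
      intro p p' hpp
      by_contra hne
      have h1 : dist (pt p) (pt p') < 2 * R := by
        have a1 := hζ1 (pt p)
        have a2 := hζ1 (pt p')
        simp only at hpp
        rw [← hpp] at a2
        rw [mem_ball, dist_comm] at a1
        rw [mem_ball] at a2
        calc dist (pt p) (pt p') ≤ dist (pt p) (ζ (pt p)) + dist (ζ (pt p)) (pt p') :=
              dist_triangle _ _ _
          _ < 2 * R := by linarith
      have h2 : 2 * R ≤ dist (pt p) (pt p') := by
        have e : pt p - pt p' = (2 * R : ℝ) * ((((p.1 : ℤ) - p'.1 : ℤ) : ℂ) +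
            (((p.2 : ℤ) - p'.2 : ℤ) : ℂ) * Complex.I) := by
          simp only [hpt]; push_cast; ring
        rw [dist_eq_norm, e, norm_mul, Complex.norm_real, Real.norm_of_nonneg (by positivity)]
        have h3 : (1 : ℝ) ≤ ‖((((p.1 : ℤ) - p'.1 : ℤ) : ℂ) +
            (((p.2 : ℤ) - p'.2 : ℤ) : ℂ) * Complex.I)‖ := by
          have hne' : ((p.1 : ℤ) - p'.1) ≠ 0 ∨ ((p.2 : ℤ) - p'.2) ≠ 0 := by
            by_contra hh
            push Not at hh
            apply hne
            ext <;> omega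
          rcases hne' with h | h
          · refine le_trans ?_ (Complex.abs_re_le_norm _)
            have : ((((p.1 : ℤ) - p'.1 : ℤ) : ℂ) +
              (((p.2 : ℤ) - p'.2 : ℤ) : ℂ) * Complex.I).re = (((p.1 : ℤ) - p'.1 : ℤ) : ℝ) := by
              simp
            rw [this]
            exact_mod_cast Int.one_le_abs h
          · refine le_trans ?_ (Complex.abs_im_le_norm _)
            have : ((((p.1 : ℤ) - p'.1 : ℤ) : ℂ) +
              (((p.2 : ℤ) - p'.2 : ℤ) : ℂ) * Complex.I).im = (((p.2 : ℤ) - p'.2 : ℤ) : ℝ) := by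
              simp
            rw [this]
            exact_mod_cast Int.one_le_abs h
        nlinarith
      linarith
    set S : Finset ℂ := (Finset.range m ×ˢ Finset.range m).image (fun p => ζ (pt p)) with hS
    have hcard : S.card = m ^ 2 := by
      rw [hS, Finset.card_image_of_injective _ hinj, Finset.card_product, Finset.card_range, sq]
    have hSin : ∀ z ∈ S, z ∈ closedBall c (4 * R * m) ∧ g z = 0 := by
      intro z hz
      rw [hS, Finset.mem_image] at hz
      obtain ⟨p, hp, rfl⟩ := hz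
      rw [Finset.mem_product, Finset.mem_range, Finset.mem_range] at hp
      refine ⟨?_, hζ2 _⟩
      rw [mem_closedBall]
      have h1 := hζ1 (pt p)
      rw [mem_ball] at h1
      have hp1 : (p.1 : ℝ) + 1 ≤ m := by exact_mod_cast hp.1
      have hp2 : (p.2 : ℝ) + 1 ≤ m := by exact_mod_cast hp.2
      have h2 : dist (pt p) c ≤ 2 * R * (p.1 + p.2) := by
        rw [dist_eq_norm]
        have e : pt p - c = ((2 * R : ℝ) : ℂ) * ((p.1 : ℂ) + (p.2 : ℂ) * Complex.I) := by
          simp only [hpt]; push_cast; ring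
        rw [e, norm_mul, Complex.norm_real, Real.norm_of_nonneg (by positivity)]
        apply mul_le_mul_of_nonneg_left _ (by positivity)
        refine (norm_add_le _ _).trans ?_
        rw [norm_mul, Complex.norm_I, mul_one, Complex.norm_natCast, Complex.norm_natCast]
      calc dist (ζ (pt p)) c ≤ dist (ζ (pt p)) (pt p) + dist (pt p) c := dist_triangle _ _ _
        _ ≤ R + 2 * R * (p.1 + p.2) := by linarith
        _ ≤ 4 * R * m := by nlinarith
    have hr : 0 < 4 * R * m := by positivity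
    set M : ℝ := C * Real.exp (ε * (2 * ‖c‖ ^ 2 + 128 * R ^ 2 * (m : ℝ) ^ 2)) with hM
    have hM1 : 1 ≤ M := by
      rw [hM]
      have : 1 ≤ Real.exp (ε * (2 * ‖c‖ ^ 2 + 128 * R ^ 2 * (m : ℝ) ^ 2)) :=
        Real.one_le_exp (by positivity)
      nlinarith
    have hbound : ∀ z ∈ sphere c (2 * (4 * R * m)), ‖g z‖ ≤ M := by
      intro z hz
      rw [mem_sphere, dist_eq_norm] at hz
      refine (hC z).trans ?_
      apply mul_le_mul_of_nonneg_left _ (by linarith)
      apply Real.exp_le_exp.mpr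
      apply mul_le_mul_of_nonneg_left _ hεpos.le
      have h1 : ‖z‖ ≤ ‖c‖ + 8 * R * m := by
        calc ‖z‖ = ‖c + (z - c)‖ := by congr 1; ring
          _ ≤ ‖c‖ + ‖z - c‖ := norm_add_le _ _
          _ = ‖c‖ + 8 * R * m := by rw [hz]; ring
      have h2 : ‖z‖ ^ 2 ≤ (‖c‖ + 8 * R * m) ^ 2 := pow_le_pow_left₀ (norm_nonneg _) h1 2
      nlinarith [sq_nonneg (‖c‖ - 8 * R * m)]
    have h1 := card_zeros_le hg hc hr hM1 hbound S hSin
    rw [hcard, le_div_iff₀ hLpos] at h1
    have hgc : 0 < ‖g c‖ := norm_pos_iff.mpr hc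
    rw [Real.log_div (by linarith) hgc.ne', hM, Real.log_mul (by linarith) (Real.exp_pos _).ne',
      Real.log_exp] at h1
    push_cast at h1
    exact h1
  -- contradiction for large `m`
  have hεR : ε * (128 * R ^ 2) = L / 2 := by
    rw [hε]; field_simp; ring
  have key2 : ∀ m : ℕ, 1 ≤ m → ((m : ℝ) ^ 2) * (L / 2) ≤
      Real.log C + ε * (2 * ‖c‖ ^ 2) - Real.log ‖g c‖ := by
    intro m hm
    have := key m hm
    have e : ε * (2 * ‖c‖ ^ 2 + 128 * R ^ 2 * (m : ℝ) ^ 2) =
        ε * (2 * ‖c‖ ^ 2) + (ε * (128 * R ^ 2)) * (m : ℝ) ^ 2 := by ring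
    rw [e, hεR] at this
    linarith
  set B : ℝ := Real.log C + ε * (2 * ‖c‖ ^ 2) - Real.log ‖g c‖ with hB
  obtain ⟨m, hm⟩ := exists_nat_gt (max 1 (B / (L / 2)))
  have hm1 : (1 : ℝ) < m := (le_max_left _ _).trans_lt hm
  have hm2 : B / (L / 2) < m := (le_max_right _ _).trans_lt hm
  have hm1' : 1 ≤ m := by exact_mod_cast hm1.le
  have h3 := key2 m hm1'
  rw [div_lt_iff₀ (by positivity)] at hm2
  have h4 : (m : ℝ) * (L / 2) ≤ (m : ℝ) ^ 2 * (L / 2) :=
    mul_le_mul_of_nonneg_right (by nlinarith) (by positivity)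
  linarith

end Pool.Agent.Lib.MP_db21fa_an_h84
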