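import Mathlib

/-!
Key estimate: if `exp (φ (x - y) + ψ (x + y))` has all `(N+1) × (N+1)` minors zero then the second
derivatives of `φ` and `ψ` differ by at most `C_N / r ^ 2`.
-/

set_option autoImplicit false

open Metric Filter Topology

namespace Pool.Agent.Lib.MP_db21fa_an_h84

/-- `φ1`, `φ2` are the first and second derivatives of `φ` on the ball. -/
def Jet (φ φ1 φ2 : ℂ → ℂ) (R : ℝ) : Prop :=
  ∀ z ∈ ball (0 : ℂ) R, HasDerivAt φ (φ1 z) z ∧ HasDerivAt φ1 (φ2 z) z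

theorem Jet.mono {φ φ1 φ2 : ℂ → ℂ} {R R' : ℝ} (h : Jet φ φ1 φ2 R) (hR : R' ≤ R) :
    Jet φ φ1 φ2 R' := fun z hz => h z (ball_subset_ball hR hz)

theorem Jet.diff2 {φ φ1 φ2 : ℂ → ℂ} {R : ℝ} (h : Jet φ φ1 φ2 R) :
    DifferentiableOn ℂ φ2 (ball 0 R) := by
  have h1 : DifferentiableOn ℂ φ1 (ball 0 R) := fun z hz =>
    (h z hz).2.differentiableAt.differentiableWithinAt
  have h2 := h1.deriv isOpen_ball
  exact h2.congr fun z hz => ((h z hz).2.deriv).symm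

theorem cauchy_const {f : ℂ → ℂ} {R K : ℝ} (hR : 0 < R) (hf : DifferentiableOn ℂ f (ball 0 R))
    (hK : ∀ z ∈ ball (0 : ℂ) R, ‖f z‖ ≤ K) (z : ℂ) (hz : ‖z‖ < R / 2) :
    ‖f z - f 0‖ ≤ 4 * K / R * ‖z‖ := by
  have hconv : Convex ℝ (ball (0 : ℂ) (R / 2)) := convex_ball _ _
  have hd : ∀ w ∈ ball (0 : ℂ) (R / 2), DifferentiableAt ℂ f w := fun w hw =>
    (hf w (ball_subset_ball (by linarith) hw)).differentiableAt
      (isOpen_ball.mem_nhds (ball_subset_ball (by linarith) hw))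
  have hb : ∀ w ∈ ball (0 : ℂ) (R / 2), ‖deriv f w‖ ≤ 4 * K / R := by
    intro w hw
    have hsub : closedBall w (R / 4) ⊆ ball (0 : ℂ) R := by
      intro u hu
      rw [mem_ball] at hw ⊢
      rw [mem_closedBall] at hu
      calc dist u 0 ≤ dist u w + dist w 0 := dist_triangle _ _ _
        _ < R := by linarith
    have hdc : DiffContOnCl ℂ f (ball w (R / 4)) := by
      apply DifferentiableOn.diffContOnCl
      rw [closure_ball _ (by positivity)]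
      exact hf.mono hsub
    have := Complex.norm_deriv_le_of_forall_mem_sphere_norm_le (by positivity : 0 < R / 4) hdc
      (C := K) (fun u hu => hK u (hsub (sphere_subset_closedBall hu)))
    calc ‖deriv f w‖ ≤ K / (R / 4) := this
      _ = 4 * K / R := by field_simp
  have := hconv.norm_image_sub_le_of_norm_deriv_le hd hb
    (mem_ball_self (by positivity)) (by simpa using hz : z ∈ ball (0 : ℂ) (R / 2))
  simpa using this

theorem taylor_est {φ φ1 φ2 : ℂ → ℂ} {R K : ℝ} (hR : 0 < R) (h : Jet φ φ1 φ2 R)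
    (hK : ∀ z ∈ ball (0 : ℂ) R, ‖φ2 z‖ ≤ K) (z : ℂ) (hz : ‖z‖ < R / 2) :
    ‖φ z - φ 0 - φ1 0 * z - φ2 0 * z ^ 2 / 2‖ ≤ 4 * K / R * ‖z‖ ^ 3 := by
  have hK0 : 0 ≤ K := (norm_nonneg _).trans (hK 0 (mem_ball_self hR))
  have hsub : ∀ w ∈ closedBall (0 : ℂ) ‖z‖, w ∈ ball (0 : ℂ) R := by
    intro w hw
    rw [mem_closedBall, dist_zero_right] at hw
    rw [mem_ball, dist_zero_right]; linarith
  have hconv : Convex ℝ (closedBall (0 : ℂ) ‖z‖) := convex_closedBall _ _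
  have h0 : (0 : ℂ) ∈ closedBall (0 : ℂ) ‖z‖ := by simp
  -- first step
  have s1 : ∀ w ∈ closedBall (0 : ℂ) ‖z‖, ‖φ1 w - φ1 0 - φ2 0 * w‖ ≤ 4 * K / R * ‖z‖ * ‖z‖ := by
    intro w hw
    have hw' : ‖w‖ ≤ ‖z‖ := by simpa using hw
    have := hconv.norm_image_sub_le_of_norm_hasDerivWithin_le
      (f := fun u => φ1 u - φ1 0 - φ2 0 * u) (f' := fun u => φ2 u - φ2 0)
      (C := 4 * K / R * ‖z‖) (x := 0) (y := w)
      (fun u hu => by
        have h1 := (((h u (hsub u hu)).2.sub_const (φ1 0)).sub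
          ((hasDerivAt_id u).const_mul (φ2 0)))
        refine (h1.congr_deriv ?_).hasDerivWithinAt
        simp)
      (fun u hu => by
        have hu' : ‖u‖ ≤ ‖z‖ := by simpa using hu
        refine (cauchy_const hR h.diff2 hK u (by linarith)).trans ?_
        exact mul_le_mul_of_nonneg_left hu' (by positivity))
      h0 hw
    simp only [sub_self, mul_zero, sub_zero] at this
    refine this.trans ?_
    exact mul_le_mul_of_nonneg_left hw' (by positivity)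
  have hz' : z ∈ closedBall (0 : ℂ) ‖z‖ := by simp
  have := hconv.norm_image_sub_le_of_norm_hasDerivWithin_le
      (f := fun u => φ u - φ 0 - φ1 0 * u - φ2 0 * u ^ 2 / 2)
      (f' := fun u => φ1 u - φ1 0 - φ2 0 * u)
      (C := 4 * K / R * ‖z‖ * ‖z‖) (x := 0) (y := z)
      (fun u hu => by
        have h1 := (((h u (hsub u hu)).1.sub_const (φ 0)).sub
          ((hasDerivAt_id u).const_mul (φ1 0))).sub
          ((((hasDerivAt_id u).pow 2).const_mul (φ2 0)).div_const 2)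
        refine (h1.congr_deriv ?_).hasDerivWithinAt
        simp; ring)
      s1 h0 hz'
  simp only [sub_self, mul_zero, sub_zero, ne_eq, OfNat.ofNat_ne_zero, not_false_eq_true,
    zero_pow, zero_div] at this
  calc _ ≤ _ := this
    _ = _ := by ring

/-- All `(N+1) × (N+1)` minors of `H (x - y) * B (x + y)` with arguments in the ball vanish. -/
def RC (N : ℕ) (r : ℝ) (H B : ℂ → ℂ) : Prop :=
  ∀ x y : Fin (N + 1) → ℂ, (∀ i j, ‖x i - y j‖ < r ∧ ‖x i + y j‖ < r) →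
    Matrix.det (Matrix.of fun i j => H (x i - y j) * B (x i + y j)) = 0

theorem det_scale {N : ℕ} (a c : Fin (N + 1) → ℂ) (M : Fin (N + 1) → Fin (N + 1) → ℂ) :
    Matrix.det (Matrix.of fun i j => a i * c j * M i j) =
      (∏ i, a i) * ((∏ j, c j) * Matrix.det (Matrix.of M)) := by
  rw [← Matrix.det_mul_row, ← Matrix.det_mul_column]
  congr 1
  ext i j
  simp [Matrix.of_apply, mul_assoc]

theorem det_scale_zero {N : ℕ} {a c : Fin (N + 1) → ℂ} {M M' : Fin (N + 1) → Fin (N + 1) → ℂ}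
    (h : ∀ i j, M' i j = a i * c j * M i j) (h0 : Matrix.det (Matrix.of M) = 0) :
    Matrix.det (Matrix.of M') = 0 := by
  have : (Matrix.of M') = Matrix.of fun i j => a i * c j * M i j := by
    ext i j; simp [h]
  rw [this, det_scale, h0]; simp

/-- The kernel `exp (u x y)` with `u ≠ 0` has infinite rank. -/
theorem exp_infinite_rank {N : ℕ} {u : ℂ} (hu : u ≠ 0) :
    Matrix.det (Matrix.of fun i j : Fin (N + 1) =>
      Complex.exp (u * ((i : ℂ) * ((j : ℂ) / u)))) ≠ 0 := by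
  have : (Matrix.of fun i j : Fin (N + 1) => Complex.exp (u * ((i : ℂ) * ((j : ℂ) / u))))
      = Matrix.vandermonde (fun i : Fin (N + 1) => Complex.exp (i : ℂ)) := by
    ext i j
    rw [Matrix.vandermonde_apply, Matrix.of_apply, ← Complex.exp_nat_mul]
    congr 1
    field_simp
  rw [this, Matrix.det_vandermonde_ne_zero_iff]
  intro i j hij
  have h1 : Complex.exp ((i : ℝ) : ℂ) = Complex.exp ((j : ℝ) : ℂ) := by
    simpa using hij
  rw [← Complex.ofReal_exp, ← Complex.ofReal_exp] at h1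
  have h2 := Real.exp_injective (Complex.ofReal_injective h1)
  exact Fin.ext (by exact_mod_cast h2)

theorem tlim {l : Filter ℕ} {R : ℕ → ℝ} (hR : Tendsto R l atTop) {φ φ1 φ2 : ℕ → ℂ → ℂ} {K : ℝ}
    (h : ∀ k, Jet (φ k) (φ1 k) (φ2 k) (R k)) (hK : ∀ k, ∀ z ∈ ball (0 : ℂ) (R k), ‖φ2 k z‖ ≤ K)
    {a : ℂ} (ha : Tendsto (fun k => φ2 k 0) l (𝓝 a)) (z : ℂ) :
    Tendsto (fun k => φ k z - φ k 0 - φ1 k 0 * z) l (𝓝 (a * z ^ 2 / 2)) := by
  have h1 : Tendsto (fun k => φ2 k 0 * z ^ 2 / 2) l (𝓝 (a * z ^ 2 / 2)) :=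
    (ha.mul_const _).div_const _
  have h2 : Tendsto (fun k => (φ k z - φ k 0 - φ1 k 0 * z - φ2 k 0 * z ^ 2 / 2)) l (𝓝 0) := by
    apply squeeze_zero_norm' (a := fun k => 4 * K / R k * ‖z‖ ^ 3)
    · filter_upwards [hR.eventually_gt_atTop (2 * ‖z‖), hR.eventually_gt_atTop 0] with k hk hk0
      exact taylor_est hk0 (h k) (hK k) z (by linarith)
    · have : Tendsto (fun k => 4 * K / R k * ‖z‖ ^ 3) l (𝓝 (0 * ‖z‖ ^ 3)) :=
        (hR.const_div_atTop _).mul_const _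
      simpa using this
  have h3 := h2.add h1
  simpa using h3

theorem tendsto_det {l : Filter ℕ} {N : ℕ} {M : ℕ → Fin N → Fin N → ℂ} {M' : Fin N → Fin N → ℂ}
    (h : ∀ i j, Tendsto (fun k => M k i j) l (𝓝 (M' i j))) :
    Tendsto (fun k => Matrix.det (Matrix.of (M k))) l (𝓝 (Matrix.det (Matrix.of M'))) := by
  simp only [Matrix.det_apply, Matrix.of_apply]
  exact tendsto_finsetSum _ fun σ _ =>
    (tendsto_finsetProd _ fun i _ => h _ _).const_smul _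

theorem no_normalised {N : ℕ} {l : Filter ℕ} [l.NeBot] {R : ℕ → ℝ} (hR : Tendsto R l atTop)
    {φ φ1 φ2 ψ ψ1 ψ2 : ℕ → ℂ → ℂ} {K : ℝ}
    (hφ : ∀ k, Jet (φ k) (φ1 k) (φ2 k) (R k)) (hψ : ∀ k, Jet (ψ k) (ψ1 k) (ψ2 k) (R k))
    (bφ : ∀ k, ∀ z ∈ ball (0 : ℂ) (R k), ‖φ2 k z‖ ≤ K)
    (bψ : ∀ k, ∀ z ∈ ball (0 : ℂ) (R k), ‖ψ2 k z‖ ≤ K)
    {a : ℂ} (ha0 : a ≠ 0) (ha : Tendsto (fun k => φ2 k 0) l (𝓝 a))
    (hb : Tendsto (fun k => ψ2 k 0) l (𝓝 0))
    (rc : ∀ k, RC N (R k) (fun z => Complex.exp (φ k z)) (fun z => Complex.exp (ψ k z))) :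
    False := by
  have key : ∀ x y : Fin (N + 1) → ℂ,
      Matrix.det (Matrix.of fun i j => Complex.exp (a * (x i - y j) ^ 2 / 2)) = 0 := by
    intro x y
    have h1 : Tendsto (fun k => Matrix.det (Matrix.of fun i j : Fin (N + 1) =>
        Complex.exp ((φ k (x i - y j) - φ k 0 - φ1 k 0 * (x i - y j)) +
          (ψ k (x i + y j) - ψ k 0 - ψ1 k 0 * (x i + y j))))) l
        (𝓝 (Matrix.det (Matrix.of fun i j => Complex.exp (a * (x i - y j) ^ 2 / 2)))) := by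
      apply tendsto_det
      intro i j
      have := (tlim hR hφ bφ ha (x i - y j)).add (tlim hR hψ bψ hb (x i + y j))
      have h2 := (Complex.continuous_exp.tendsto _).comp this
      simpa [Function.comp_def] using h2
    have h2 : ∀ᶠ k in l, Matrix.det (Matrix.of fun i j : Fin (N + 1) =>
        Complex.exp ((φ k (x i - y j) - φ k 0 - φ1 k 0 * (x i - y j)) +
          (ψ k (x i + y j) - ψ k 0 - ψ1 k 0 * (x i + y j)))) = 0 := by
      have h3 : ∀ᶠ k in l, ∀ i j : Fin (N + 1), ‖x i - y j‖ < R k ∧ ‖x i + y j‖ < R k := by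
        rw [Filter.eventually_all]; intro i
        rw [Filter.eventually_all]; intro j
        exact (hR.eventually_gt_atTop _).and (hR.eventually_gt_atTop _)
      filter_upwards [h3] with k hk
      refine det_scale_zero
        (a := fun i => Complex.exp (-(φ k 0 + ψ k 0) - (φ1 k 0 + ψ1 k 0) * x i))
        (c := fun j => Complex.exp ((φ1 k 0 - ψ1 k 0) * y j)) ?_ (rc k x y hk)
      intro i j
      rw [← Complex.exp_add, ← Complex.exp_add, ← Complex.exp_add]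
      congr 1
      ring
    have h4 : Tendsto (fun k => Matrix.det (Matrix.of fun i j : Fin (N + 1) =>
        Complex.exp ((φ k (x i - y j) - φ k 0 - φ1 k 0 * (x i - y j)) +
          (ψ k (x i + y j) - ψ k 0 - ψ1 k 0 * (x i + y j))))) l (𝓝 0) := by
      refine tendsto_const_nhds.congr' ?_
      filter_upwards [h2] with k hk
      exact hk.symm
    exact tendsto_nhds_unique h1 h4
  have hu : -a ≠ 0 := neg_ne_zero.mpr ha0
  have := key (fun i => (i : ℂ)) (fun j => (j : ℂ) / (-a))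
  apply exp_infinite_rank (N := N) hu
  refine det_scale_zero (a := fun i => Complex.exp (-(a * (i : ℂ) ^ 2 / 2)))
    (c := fun j => Complex.exp (-(a * ((j : ℂ) / (-a)) ^ 2 / 2))) ?_ this
  intro i j
  rw [← Complex.exp_add, ← Complex.exp_add]
  congr 1
  ring

theorem rescale {N : ℕ} {φ φ1 φ2 ψ ψ1 ψ2 : ℂ → ℂ} (hφ : Jet φ φ1 φ2 1) (hψ : Jet ψ ψ1 ψ2 1)
    (rc : RC N 1 (fun z => Complex.exp (φ z)) (fun z => Complex.exp (ψ z)))
    {M : ℝ} (hM : 0 < M) (h : M < ‖φ2 0 - ψ2 0‖) :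
    ∃ Φ Φ1 Φ2 Ψ Ψ1 Ψ2 : ℂ → ℂ, ∃ R : ℝ, √M / 4 ≤ R ∧ Jet Φ Φ1 Φ2 R ∧ Jet Ψ Ψ1 Ψ2 R ∧
      (∀ z ∈ ball (0 : ℂ) R, ‖Φ2 z‖ ≤ 5) ∧ (∀ z ∈ ball (0 : ℂ) R, ‖Ψ2 z‖ ≤ 5) ∧
      ‖Φ2 0‖ = 1 ∧ Ψ2 0 = 0 ∧
      RC N R (fun z => Complex.exp (Φ z)) (fun z => Complex.exp (Ψ z)) := by
  set K : Set (ℂ × ℂ) := closedBall 0 (1 / 2) ×ˢ closedBall 0 (1 / 2) with hKdef
  have hKc : IsCompact K := (isCompact_closedBall _ _).prod (isCompact_closedBall _ _)
  set E : ℂ × ℂ → ℝ := fun p => ‖φ2 p.1 - ψ2 p.2‖ * (1 / 2 - max ‖p.1‖ ‖p.2‖) ^ 2 with hE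
  have hsub : closedBall (0 : ℂ) (1 / 2) ⊆ ball 0 1 := closedBall_subset_ball (by norm_num)
  have hEc : ContinuousOn E K := by
    have h1 : ContinuousOn (fun p : ℂ × ℂ => φ2 p.1) K :=
      (hφ.diff2.continuousOn.mono hsub).comp continuousOn_fst (fun p hp => hp.1)
    have h2 : ContinuousOn (fun p : ℂ × ℂ => ψ2 p.2) K :=
      (hψ.diff2.continuousOn.mono hsub).comp continuousOn_snd (fun p hp => hp.2)
    have h3 : ContinuousOn (fun p : ℂ × ℂ => (1 / 2 - max ‖p.1‖ ‖p.2‖) ^ 2) K := by fun_prop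
    exact (h1.sub h2).norm.mul h3
  have h0K : ((0, 0) : ℂ × ℂ) ∈ K := by simp [hKdef]
  obtain ⟨⟨z0, w0⟩, hmem, hmax⟩ := hKc.exists_isMaxOn ⟨_, h0K⟩ hEc
  have hz0 : ‖z0‖ ≤ 1 / 2 := by simpa using hmem.1
  have hw0 : ‖w0‖ ≤ 1 / 2 := by simpa using hmem.2
  set δ : ℝ := 1 / 2 - max ‖z0‖ ‖w0‖ with hδ
  have hδ0 : 0 ≤ δ := by rw [hδ]; linarith [max_le hz0 hw0]
  set κ : ℂ := φ2 z0 - ψ2 w0 with hκ
  have hE0 : M / 4 < ‖κ‖ * δ ^ 2 := by
    have h1 : E (0, 0) ≤ E (z0, w0) := hmax h0K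
    have h2 : E (0, 0) = ‖φ2 0 - ψ2 0‖ / 4 := by simp only [hE]; simp; ring
    have h3 : E (z0, w0) = ‖κ‖ * δ ^ 2 := rfl
    rw [h2, h3] at h1
    linarith
  have hδpos : 0 < δ := by
    rcases hδ0.lt_or_eq with h | h
    · exact h
    · rw [← h] at hE0; simp at hE0; linarith
  have hκpos : 0 < ‖κ‖ := by
    rcases (norm_nonneg κ).lt_or_eq with h | h
    · exact h
    · rw [← h] at hE0; simp at hE0; linarith
  set ρ : ℝ := 1 / √‖κ‖ with hρ
  have hsq : 0 < √‖κ‖ := Real.sqrt_pos.mpr hκpos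
  have hρpos : 0 < ρ := by positivity
  have hρsq : ρ ^ 2 * ‖κ‖ = 1 := by
    rw [hρ, div_pow, Real.sq_sqrt hκpos.le]; field_simp
  set R : ℝ := δ / (2 * ρ) with hR
  have hRpos : 0 < R := by positivity
  have hρR : ρ * R = δ / 2 := by rw [hR]; field_simp
  have hin : ∀ z ∈ ball (0 : ℂ) R, ‖(ρ : ℂ) * z‖ ≤ δ / 2 := by
    intro z hz
    rw [mem_ball, dist_zero_right] at hz
    rw [norm_mul, Complex.norm_real, Real.norm_of_nonneg hρpos.le, ← hρR]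
    exact mul_le_mul_of_nonneg_left hz.le hρpos.le
  have hmx1 : ‖z0‖ ≤ 1 / 2 - δ := by rw [hδ]; linarith [le_max_left ‖z0‖ ‖w0‖]
  have hmx2 : ‖w0‖ ≤ 1 / 2 - δ := by rw [hδ]; linarith [le_max_right ‖z0‖ ‖w0‖]
  have hzin : ∀ z ∈ ball (0 : ℂ) R, ‖z0 + ρ * z‖ ≤ 1 / 2 - δ / 2 := fun z hz =>
    (norm_add_le _ _).trans (by linarith [hin z hz])
  have hwin : ∀ z ∈ ball (0 : ℂ) R, ‖w0 + ρ * z‖ ≤ 1 / 2 - δ / 2 := fun z hz =>
    (norm_add_le _ _).trans (by linarith [hin z hz])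
  have hbig : ∀ z w : ℂ, ‖z‖ ≤ 1 / 2 - δ / 2 → ‖w‖ ≤ 1 / 2 - δ / 2 →
      ‖φ2 z - ψ2 w‖ ≤ 4 * ‖κ‖ := by
    intro z w hz hw
    have h1 : E (z, w) ≤ E (z0, w0) := by
      apply hmax
      constructor
      · simpa using (by linarith : ‖z‖ ≤ 1 / 2)
      · simpa using (by linarith : ‖w‖ ≤ 1 / 2)
    have h3 : E (z0, w0) = ‖κ‖ * δ ^ 2 := rfl
    have h4 : (δ / 2) ^ 2 ≤ (1 / 2 - max ‖z‖ ‖w‖) ^ 2 := by
      have : δ / 2 ≤ 1 / 2 - max ‖z‖ ‖w‖ := by linarith [max_le hz hw]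
      exact pow_le_pow_left₀ (by positivity) this 2
    have h5 : ‖φ2 z - ψ2 w‖ * (δ / 2) ^ 2 ≤ ‖κ‖ * δ ^ 2 :=
      (mul_le_mul_of_nonneg_left h4 (norm_nonneg _)).trans (h1.trans h3.le)
    have h6 : ‖φ2 z - ψ2 w‖ * δ ^ 2 ≤ (4 * ‖κ‖) * δ ^ 2 := by nlinarith
    exact le_of_mul_le_mul_right h6 (by positivity)
  set c : ℂ := ψ2 w0 with hc
  have h0R : (0 : ℂ) ∈ ball (0 : ℂ) R := mem_ball_self hRpos
  refine ⟨fun z => φ (z0 + ρ * z) - c * ρ ^ 2 * z ^ 2 / 2,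
    fun z => ρ * φ1 (z0 + ρ * z) - c * ρ ^ 2 * z, fun z => ρ ^ 2 * (φ2 (z0 + ρ * z) - c),
    fun z => ψ (w0 + ρ * z) - c * ρ ^ 2 * z ^ 2 / 2,
    fun z => ρ * ψ1 (w0 + ρ * z) - c * ρ ^ 2 * z, fun z => ρ ^ 2 * (ψ2 (w0 + ρ * z) - c),
    R, ?_, ?_, ?_, ?_, ?_, ?_, ?_, ?_⟩
  · have h1 : M ≤ (4 * R) ^ 2 := by
      have : (4 * R) ^ 2 = 4 * (‖κ‖ * δ ^ 2) := by
        have h2 : R ^ 2 * ρ ^ 2 = δ ^ 2 / 4 := by rw [← mul_pow, mul_comm R, hρR]; ring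
        have h3 : R ^ 2 = R ^ 2 * (ρ ^ 2 * ‖κ‖) := by rw [hρsq, mul_one]
        rw [mul_pow, h3, ← mul_assoc (R ^ 2), h2]; ring
      rw [this]; linarith
    have h2 : √M ≤ 4 * R := by
      calc √M ≤ √((4 * R) ^ 2) := Real.sqrt_le_sqrt h1
        _ = 4 * R := Real.sqrt_sq (by positivity)
    linarith
  · intro z hz
    have hzz : z0 + ρ * z ∈ ball (0 : ℂ) 1 := by
      rw [mem_ball, dist_zero_right]; linarith [hzin z hz]
    have hl : HasDerivAt (fun z : ℂ => z0 + (ρ : ℂ) * z) ρ z := by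
      simpa using ((hasDerivAt_id z).const_mul (ρ : ℂ)).const_add z0
    have h1 := (hφ _ hzz).1.comp z hl
    have h2 := (hφ _ hzz).2.comp z hl
    constructor
    · refine (h1.sub (((((hasDerivAt_id z).pow 2).const_mul (c * ρ ^ 2))).div_const 2)).congr_deriv ?_
      simp; ring
    · refine ((h2.const_mul (ρ : ℂ)).sub ((hasDerivAt_id z).const_mul (c * ρ ^ 2))).congr_deriv ?_
      simp; ring
  · intro z hz
    have hzz : w0 + ρ * z ∈ ball (0 : ℂ) 1 := by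
      rw [mem_ball, dist_zero_right]; linarith [hwin z hz]
    have hl : HasDerivAt (fun z : ℂ => w0 + (ρ : ℂ) * z) ρ z := by
      simpa using ((hasDerivAt_id z).const_mul (ρ : ℂ)).const_add w0
    have h1 := (hψ _ hzz).1.comp z hl
    have h2 := (hψ _ hzz).2.comp z hl
    constructor
    · refine (h1.sub (((((hasDerivAt_id z).pow 2).const_mul (c * ρ ^ 2))).div_const 2)).congr_deriv ?_
      simp; ring
    · refine ((h2.const_mul (ρ : ℂ)).sub ((hasDerivAt_id z).const_mul (c * ρ ^ 2))).congr_deriv ?_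
      simp; ring
  · intro z hz
    have h1 := hbig _ _ (hzin z hz) (by linarith : ‖w0‖ ≤ 1 / 2 - δ / 2)
    simp only [norm_mul, norm_pow, Complex.norm_real, Real.norm_of_nonneg hρpos.le]
    calc ρ ^ 2 * ‖φ2 (z0 + ρ * z) - c‖ ≤ ρ ^ 2 * (4 * ‖κ‖) :=
          mul_le_mul_of_nonneg_left h1 (by positivity)
      _ = 4 * (ρ ^ 2 * ‖κ‖) := by ring
      _ ≤ 5 := by rw [hρsq]; norm_num
  · intro z hz
    have h1 := hbig _ _ (by linarith : ‖z0‖ ≤ 1 / 2 - δ / 2) (hwin z hz)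
    have h2 : ‖ψ2 (w0 + ρ * z) - c‖ ≤ 5 * ‖κ‖ := by
      have : ψ2 (w0 + ρ * z) - c = κ - (φ2 z0 - ψ2 (w0 + ρ * z)) := by rw [hκ, hc]; ring
      rw [this]
      refine (norm_sub_le _ _).trans ?_
      linarith
    simp only [norm_mul, norm_pow, Complex.norm_real, Real.norm_of_nonneg hρpos.le]
    calc ρ ^ 2 * ‖ψ2 (w0 + ρ * z) - c‖ ≤ ρ ^ 2 * (5 * ‖κ‖) :=
          mul_le_mul_of_nonneg_left h2 (by positivity)
      _ = 5 * (ρ ^ 2 * ‖κ‖) := by ring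
      _ ≤ 5 := by rw [hρsq]; norm_num
  · simp only [mul_zero, add_zero, norm_mul, norm_pow, Complex.norm_real,
      Real.norm_of_nonneg hρpos.le]
    exact hρsq
  · simp [hc]
  · intro x y hxy
    have hxy' : ∀ i j, ‖((ρ : ℂ) * x i + (z0 + w0) / 2) - ((ρ : ℂ) * y j + (w0 - z0) / 2)‖ < 1 ∧
        ‖((ρ : ℂ) * x i + (z0 + w0) / 2) + ((ρ : ℂ) * y j + (w0 - z0) / 2)‖ < 1 := by
      intro i j
      have e1 : ((ρ : ℂ) * x i + (z0 + w0) / 2) - ((ρ : ℂ) * y j + (w0 - z0) / 2)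
          = z0 + ρ * (x i - y j) := by ring
      have e2 : ((ρ : ℂ) * x i + (z0 + w0) / 2) + ((ρ : ℂ) * y j + (w0 - z0) / 2)
          = w0 + ρ * (x i + y j) := by ring
      rw [e1, e2]
      have h1 := hzin (x i - y j) (by simpa using (hxy i j).1)
      have h2 := hwin (x i + y j) (by simpa using (hxy i j).2)
      exact ⟨by linarith, by linarith⟩
    refine det_scale_zero (a := fun i => Complex.exp (-(c * ρ ^ 2 * x i ^ 2)))
      (c := fun j => Complex.exp (-(c * ρ ^ 2 * y j ^ 2))) ?_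
      (rc (fun i => (ρ : ℂ) * x i + (z0 + w0) / 2) (fun j => (ρ : ℂ) * y j + (w0 - z0) / 2) hxy')
    intro i j
    have e1 : ((ρ : ℂ) * x i + (z0 + w0) / 2) - ((ρ : ℂ) * y j + (w0 - z0) / 2)
        = z0 + ρ * (x i - y j) := by ring
    have e2 : ((ρ : ℂ) * x i + (z0 + w0) / 2) + ((ρ : ℂ) * y j + (w0 - z0) / 2)
        = w0 + ρ * (x i + y j) := by ring
    simp only [e1, e2]
    rw [← Complex.exp_add, ← Complex.exp_add, ← Complex.exp_add, ← Complex.exp_add]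
    congr 1
    ring

theorem key_one (N : ℕ) : ∃ C : ℝ, 0 < C ∧ ∀ φ φ1 φ2 ψ ψ1 ψ2 : ℂ → ℂ, Jet φ φ1 φ2 1 →
    Jet ψ ψ1 ψ2 1 → RC N 1 (fun z => Complex.exp (φ z)) (fun z => Complex.exp (ψ z)) →
    ‖φ2 0 - ψ2 0‖ ≤ C := by
  by_contra hcon
  push Not at hcon
  have h1 : ∀ k : ℕ, ∃ Φ Φ1 Φ2 Ψ Ψ1 Ψ2 : ℂ → ℂ, ∃ R : ℝ, √((k : ℝ) + 1) / 4 ≤ R ∧
      Jet Φ Φ1 Φ2 R ∧ Jet Ψ Ψ1 Ψ2 R ∧
      (∀ z ∈ ball (0 : ℂ) R, ‖Φ2 z‖ ≤ 5) ∧ (∀ z ∈ ball (0 : ℂ) R, ‖Ψ2 z‖ ≤ 5) ∧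
      ‖Φ2 0‖ = 1 ∧ Ψ2 0 = 0 ∧
      RC N R (fun z => Complex.exp (Φ z)) (fun z => Complex.exp (Ψ z)) := by
    intro k
    obtain ⟨φ, φ1, φ2, ψ, ψ1, ψ2, hφ, hψ, rc, h⟩ := hcon ((k : ℝ) + 1) (by positivity)
    exact rescale hφ hψ rc (by positivity) h
  choose Φ Φ1 Φ2 Ψ Ψ1 Ψ2 R hR j1 j2 b1 b2 u1 v0 rc using h1
  have hRlim : Tendsto R atTop atTop := by
    apply tendsto_atTop_mono hR
    apply Tendsto.atTop_div_const (by norm_num)
    exact Real.tendsto_sqrt_atTop.comp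
      (tendsto_atTop_add_const_right _ _ tendsto_natCast_atTop_atTop)
  have hcpt : IsCompact (sphere (0 : ℂ) 1) := isCompact_sphere _ _
  obtain ⟨a, ha, θ, hθ, hlim⟩ := hcpt.tendsto_subseq (x := fun k => Φ2 k 0)
    (fun k => by simpa using u1 k)
  have ha0 : a ≠ 0 := by
    rintro rfl
    simp at ha
  exact no_normalised (l := atTop) (R := R ∘ θ) (hRlim.comp hθ.tendsto_atTop)
    (fun k => j1 (θ k)) (fun k => j2 (θ k)) (fun k => b1 (θ k)) (fun k => b2 (θ k)) ha0 hlim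
    (by simp [v0]) (fun k => rc (θ k))

theorem key (N : ℕ) : ∃ C : ℝ, 0 < C ∧ ∀ r : ℝ, 0 < r → ∀ φ φ1 φ2 ψ ψ1 ψ2 : ℂ → ℂ,
    Jet φ φ1 φ2 r → Jet ψ ψ1 ψ2 r →
    RC N r (fun z => Complex.exp (φ z)) (fun z => Complex.exp (ψ z)) →
    ‖φ2 0 - ψ2 0‖ ≤ C / r ^ 2 := by
  obtain ⟨C, hC, h⟩ := key_one N
  refine ⟨C, hC, ?_⟩
  intro r hr φ φ1 φ2 ψ ψ1 ψ2 hφ hψ rc
  have hin : ∀ z ∈ ball (0 : ℂ) 1, (r : ℂ) * z ∈ ball (0 : ℂ) r := by
    intro z hz
    rw [mem_ball, dist_zero_right] at hz ⊢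
    rw [norm_mul, Complex.norm_real, Real.norm_of_nonneg hr.le]
    nlinarith
  have hJ : ∀ f f1 f2 : ℂ → ℂ, Jet f f1 f2 r →
      Jet (fun z => f (r * z)) (fun z => r * f1 (r * z)) (fun z => r ^ 2 * f2 (r * z)) 1 := by
    intro f f1 f2 hf z hz
    have hl : HasDerivAt (fun z : ℂ => (r : ℂ) * z) r z := by
      simpa using (hasDerivAt_id z).const_mul (r : ℂ)
    have h1 := (hf _ (hin z hz)).1.comp z hl
    have h2 := (hf _ (hin z hz)).2.comp z hl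
    constructor
    · exact h1.congr_deriv (by ring)
    · exact (h2.const_mul (r : ℂ)).congr_deriv (by ring)
  have := h _ _ _ _ _ _ (hJ _ _ _ hφ) (hJ _ _ _ hψ) ?_
  · simp only [mul_zero] at this
    rw [← mul_sub, norm_mul, norm_pow, Complex.norm_real, Real.norm_of_nonneg hr.le] at this
    rw [le_div_iff₀ (by positivity)]
    linarith
  · intro x y hxy
    have := rc (fun i => r * x i) (fun j => r * y j) (fun i j => by
      rw [← mul_sub, ← mul_add]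
      have h1 := hin (x i - y j) (by simpa using (hxy i j).1)
      have h2 := hin (x i + y j) (by simpa using (hxy i j).2)
      exact ⟨by simpa using h1, by simpa using h2⟩)
    simpa only [← mul_sub, ← mul_add] using this

end Pool.Agent.Lib.MP_db21fa_an_h84
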