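import Pool.Agent.Lib.MP_db21fa_an_h84.Line
import Pool.Agent.Lib.MP_db21fa_an_h84.ExpZero

/-!
Passing to the limit along zero-free balls.
-/

set_option autoImplicit false

open Metric Filter Topology

namespace Pool.Agent.Lib.MP_db21fa_an_h84

variable {n : ℕ}

/-- polarisation on the standard basis -/
noncomputable def pol (q : (Fin n → ℂ) → ℂ) (i j : Fin n) : ℂ :=
  (q (Pi.single i 1 + Pi.single j 1) - q (Pi.single i 1) - q (Pi.single j 1)) / 2

/-- `q` is a quadratic form -/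
def QForm (q : (Fin n → ℂ) → ℂ) : Prop := ∀ v, q v = ∑ i, ∑ j, v i * v j * pol q i j

theorem qform_of_matrix {q : (Fin n → ℂ) → ℂ} {β : Fin n → Fin n → ℂ}
    (h : ∀ v, q v = ∑ i, ∑ j, v i * v j * β i j) : QForm q := by
  classical
  have h1 : ∀ i j : Fin n, ∀ v w : Fin n → ℂ, (∑ k, ∑ l, v k * w l * β k l) =
      ∑ k, v k * ∑ l, w l * β k l := by
    intro i j v w
    refine Finset.sum_congr rfl fun k _ => ?_
    rw [Finset.mul_sum]
    exact Finset.sum_congr rfl fun l _ => by ring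
  have hB : ∀ i j : Fin n, pol q i j = (β i j + β j i) / 2 := by
    intro i j
    have e : ∀ v : Fin n → ℂ, q v = ∑ k, v k * ∑ l, v l * β k l := by
      intro v; rw [h v, h1 i j]
    simp only [pol, e, Pi.add_apply, add_mul, Finset.sum_add_distrib, mul_add, Pi.single_apply,
      ite_mul, one_mul, zero_mul, Finset.sum_ite_eq', Finset.mem_univ, if_true]
    ring
  intro v
  simp only [hB]
  rw [h v]
  have h2 : ∑ i, ∑ j, v i * v j * ((β i j + β j i) / 2) =
      (∑ i, ∑ j, v i * v j * β i j) / 2 + (∑ i, ∑ j, v i * v j * β j i) / 2 := by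
    rw [Finset.sum_div, Finset.sum_div, ← Finset.sum_add_distrib]
    refine Finset.sum_congr rfl fun i _ => ?_
    rw [Finset.sum_div, Finset.sum_div, ← Finset.sum_add_distrib]
    exact Finset.sum_congr rfl fun j _ => by ring
  have h3 : (∑ i, ∑ j, v i * v j * β j i) = ∑ i, ∑ j, v i * v j * β i j := by
    rw [Finset.sum_comm]
    exact Finset.sum_congr rfl fun i _ => Finset.sum_congr rfl fun j _ => by ring
  rw [h2, h3]; ring

theorem basis_expand (v : Fin n → ℂ) : v = ∑ i, v i • (Pi.single i (1 : ℂ) : Fin n → ℂ) := by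
  classical
  ext j; simp [Finset.sum_apply, Pi.single_apply]

theorem qform_A2 (H : (Fin n → ℂ) → ℂ) (z : Fin n → ℂ) : QForm (A2 H z) := by
  apply qform_of_matrix (β := fun i j =>
    fderiv ℂ (fderiv ℂ H) z (Pi.single i 1) (Pi.single j 1) / H z -
      (fderiv ℂ H z (Pi.single i 1) / H z) * (fderiv ℂ H z (Pi.single j 1) / H z))
  intro v
  have h1 : fderiv ℂ H z v = ∑ i, v i * fderiv ℂ H z (Pi.single i 1) := by
    conv_lhs => rw [basis_expand v]
    simp
  have h2 : fderiv ℂ (fderiv ℂ H) z v v =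
      ∑ i, ∑ j, v i * v j * fderiv ℂ (fderiv ℂ H) z (Pi.single i 1) (Pi.single j 1) := by
    have e1 : ∀ u : Fin n → ℂ, fderiv ℂ (fderiv ℂ H) z v u =
        ∑ i, v i * fderiv ℂ (fderiv ℂ H) z (Pi.single i 1) u := by
      intro u
      conv_lhs => rw [basis_expand v]
      simp
    have e2 : ∀ w : Fin n → ℂ, fderiv ℂ (fderiv ℂ H) z w v =
        ∑ j, v j * fderiv ℂ (fderiv ℂ H) z w (Pi.single j 1) := by
      intro w
      conv_lhs => rw [basis_expand v]
      simp
    rw [e1]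
    refine Finset.sum_congr rfl fun i _ => ?_
    rw [e2, Finset.mul_sum]
    exact Finset.sum_congr rfl fun j _ => by ring
  rw [A2, h1, h2]
  have h3 : ((∑ i, v i * fderiv ℂ H z (Pi.single i 1)) / H z) ^ 2 =
      ∑ i, ∑ j, v i * v j * ((fderiv ℂ H z (Pi.single i 1) / H z) *
        (fderiv ℂ H z (Pi.single j 1) / H z)) := by
    rw [sq, Finset.sum_div, Finset.sum_mul]
    refine Finset.sum_congr rfl fun i _ => ?_
    rw [Finset.mul_sum]
    exact Finset.sum_congr rfl fun j _ => by ring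
  rw [h3, Finset.sum_div, ← Finset.sum_sub_distrib]
  refine Finset.sum_congr rfl fun i _ => ?_
  rw [Finset.sum_div, ← Finset.sum_sub_distrib]
  exact Finset.sum_congr rfl fun j _ => by ring

theorem qform_limit {l : Filter ℕ} [l.NeBot] {Q : ℕ → (Fin n → ℂ) → ℂ} {q : (Fin n → ℂ) → ℂ}
    (hQ : ∀ k, QForm (Q k)) (h : ∀ v, Tendsto (fun k => Q k v) l (𝓝 (q v))) : QForm q := by
  intro v
  have h1 : Tendsto (fun k => ∑ i, ∑ j, v i * v j * pol (Q k) i j) l
      (𝓝 (∑ i, ∑ j, v i * v j * pol q i j)) := by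
    apply tendsto_finsetSum _ fun i _ => tendsto_finsetSum _ fun j _ => ?_
    exact ((((h _).sub (h _)).sub (h _)).div_const 2).const_mul _
  have h2 : Tendsto (fun k => Q k v) l (𝓝 (∑ i, ∑ j, v i * v j * pol q i j)) :=
    h1.congr fun k => (hQ k v).symm
  exact tendsto_nhds_unique (h v) h2

theorem QForm.parallelogram {q : (Fin n → ℂ) → ℂ} (hq : QForm q) (x y : Fin n → ℂ) :
    q (x - y) + q (x + y) = 2 * q x + 2 * q y := by
  rw [hq (x - y), hq (x + y), hq x, hq y, Finset.mul_sum, Finset.mul_sum,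
    ← Finset.sum_add_distrib, ← Finset.sum_add_distrib]
  refine Finset.sum_congr rfl fun i _ => ?_
  rw [Finset.mul_sum, Finset.mul_sum, ← Finset.sum_add_distrib, ← Finset.sum_add_distrib]
  refine Finset.sum_congr rfl fun j _ => ?_
  simp only [Pi.sub_apply, Pi.add_apply]
  ring

theorem QForm.differentiable {q : (Fin n → ℂ) → ℂ} (hq : QForm q) : Differentiable ℂ q := by
  have : q = fun v => ∑ i, ∑ j, v i * v j * pol q i j := funext hq
  rw [this]
  fun_prop

theorem tlim' {l : Filter ℕ} {R : ℕ → ℝ} (hR : Tendsto R l atTop) {φ φ1 φ2 : ℕ → ℂ → ℂ} {K : ℝ}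
    (h : ∀ᶠ k in l, Jet (φ k) (φ1 k) (φ2 k) (R k))
    (hK : ∀ᶠ k in l, ∀ z ∈ ball (0 : ℂ) (R k), ‖φ2 k z‖ ≤ K)
    {a : ℂ} (ha : Tendsto (fun k => φ2 k 0) l (𝓝 a)) (z : ℂ) :
    Tendsto (fun k => φ k z - φ k 0 - φ1 k 0 * z) l (𝓝 (a * z ^ 2 / 2)) := by
  have h1 : Tendsto (fun k => φ2 k 0 * z ^ 2 / 2) l (𝓝 (a * z ^ 2 / 2)) :=
    (ha.mul_const _).div_const _
  have h2 : Tendsto (fun k => (φ k z - φ k 0 - φ1 k 0 * z - φ2 k 0 * z ^ 2 / 2)) l (𝓝 0) := by
    apply squeeze_zero_norm' (a := fun k => 4 * K / R k * ‖z‖ ^ 3)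
    · filter_upwards [hR.eventually_gt_atTop (2 * ‖z‖), hR.eventually_gt_atTop 0, h, hK]
        with k hk hk0 hj hb
      exact taylor_est hk0 hj hb z (by linarith)
    · have : Tendsto (fun k => 4 * K / R k * ‖z‖ ^ 3) l (𝓝 (0 * ‖z‖ ^ 3)) :=
        (hR.const_div_atTop _).mul_const _
      simpa using this
  have h3 := h2.add h1
  simpa using h3

/-- The constant of the key estimate. -/
def KeyC (N : ℕ) (C : ℝ) : Prop :=
  ∀ r : ℝ, 0 < r → ∀ φ φ1 φ2 ψ ψ1 ψ2 : ℂ → ℂ,
      Jet φ φ1 φ2 r → Jet ψ ψ1 ψ2 r →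
      RC N r (fun z => Complex.exp (φ z)) (fun z => Complex.exp (ψ z)) →
      ‖φ2 0 - ψ2 0‖ ≤ C / r ^ 2

/-- Local bound: on large zero-free balls of `h` the logarithmic Hessian is bounded. -/
theorem A2_bound {N : ℕ} {C : ℝ} (hC : KeyC N C) {h b : (Fin n → ℂ) → ℂ}
    (hh : Differentiable ℂ h) (hb : Differentiable ℂ b) (H : MC N h b)
    (hb0 : ∃ t, b t ≠ 0) : ∃ (r0 : ℝ) (K : (Fin n → ℂ) → ℝ), 0 < r0 ∧ ∀ (v z : Fin n → ℂ) (ρ : ℝ),
      r0 ≤ ρ → (∀ w ∈ ball z ρ, h w ≠ 0) → ‖A2 h z v‖ ≤ K v := by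
  obtain ⟨t, ht⟩ := hb0
  have hopen : {z | b z ≠ 0} ∈ 𝓝 t := (hb.continuous.isOpen_preimage _
    isOpen_compl_singleton).mem_nhds ht
  obtain ⟨r0, hr0, hball⟩ := Metric.mem_nhds_iff.mp hopen
  refine ⟨r0, fun v => ‖A2 b t v‖ + C / (r0 / (‖v‖ + 1)) ^ 2, hr0, ?_⟩
  intro v z ρ hρ hz
  have hv : 0 < ‖v‖ + 1 := by positivity
  have hsmall : ∀ τ ∈ ball (0 : ℂ) (r0 / (‖v‖ + 1)), ‖τ • v‖ < r0 := by
    intro τ hτ
    rw [mem_ball, dist_zero_right, lt_div_iff₀ hv] at hτ
    rw [norm_smul]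
    nlinarith [norm_nonneg τ, norm_nonneg v]
  have := hess_close hC hh hb H z t v (r := r0 / (‖v‖ + 1)) (by positivity)
    (fun τ hτ => by
      apply hz
      rw [mem_ball, dist_eq_norm, add_sub_cancel_left]
      exact (hsmall τ hτ).trans_le hρ)
    (fun τ hτ => by
      apply hball
      rw [mem_ball, dist_eq_norm, add_sub_cancel_left]
      exact hsmall τ hτ)
  calc ‖A2 h z v‖ = ‖A2 b t v + (A2 h z v - A2 b t v)‖ := by congr 1; ring
    _ ≤ ‖A2 b t v‖ + ‖A2 h z v - A2 b t v‖ := norm_add_le _ _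
    _ ≤ _ := by linarith

theorem limit_pt {l : Filter ℕ} {h : (Fin n → ℂ) → ℂ}
    (hh : Differentiable ℂ h) {r0 : ℝ} {K : (Fin n → ℂ) → ℝ}
    (hK : ∀ (v z : Fin n → ℂ) (ρ : ℝ),
      r0 ≤ ρ → (∀ w ∈ ball z ρ, h w ≠ 0) → ‖A2 h z v‖ ≤ K v)
    {s : ℕ → Fin n → ℂ} {R : ℕ → ℝ} (hR : Tendsto R l atTop)
    (h0 : ∀ k, ∀ z ∈ ball (s k) (R k), h z ≠ 0) {q : (Fin n → ℂ) → ℂ}
    (hq : ∀ v, Tendsto (fun k => A2 h (s k) v) l (𝓝 (q v))) (v : Fin n → ℂ) :
    Tendsto (fun k => h (s k + v) / h (s k) * Complex.exp (-A1 h (s k) v)) l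
      (𝓝 (Complex.exp (q v / 2))) := by
  set ρ : ℕ → ℝ := fun k => R k / (2 * (‖v‖ + 1)) with hρ
  have hv : 0 < 2 * (‖v‖ + 1) := by positivity
  have hρlim : Tendsto ρ l atTop := hR.atTop_div_const hv
  have hsmall : ∀ k, ∀ τ ∈ ball (0 : ℂ) (ρ k), ‖τ • v‖ < R k / 2 := by
    intro k τ hτ
    have hτ' := hτ
    rw [mem_ball, dist_zero_right] at hτ'
    have hρ0 : 0 < ρ k := (norm_nonneg τ).trans_lt hτ'
    rw [hρ, lt_div_iff₀ hv] at hτ'
    rw [norm_smul]
    nlinarith [norm_nonneg τ, norm_nonneg v]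
  have hex : ∀ k, ∃ φ : ℂ → ℂ, 0 < ρ k →
      (Jet φ (fun τ => A1 h (s k + τ • v) v) (fun τ => A2 h (s k + τ • v) v) (ρ k) ∧
      ∀ τ ∈ ball (0 : ℂ) (ρ k), Complex.exp (φ τ) = h (s k + τ • v)) := by
    intro k
    by_cases hk : 0 < ρ k
    · have hRk : 0 < R k := by
        rw [hρ] at hk
        exact (div_pos_iff_of_pos_right hv).mp hk
      obtain ⟨φ, hφ⟩ := exists_jet hh (s k) v hk (fun τ hτ => by
        apply h0 k
        rw [mem_ball, dist_eq_norm, add_sub_cancel_left]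
        linarith [hsmall k τ hτ])
      exact ⟨φ, fun _ => hφ⟩
    · exact ⟨0, fun h => absurd h hk⟩
  choose φ hφ using hex
  have hjet : ∀ᶠ k in l, Jet (φ k) (fun τ => A1 h (s k + τ • v) v)
      (fun τ => A2 h (s k + τ • v) v) (ρ k) := by
    filter_upwards [hρlim.eventually_gt_atTop 0] with k hk
    exact (hφ k hk).1
  have hbd : ∀ᶠ k in l, ∀ z ∈ ball (0 : ℂ) (ρ k), ‖A2 h (s k + z • v) v‖ ≤ K v := by
    filter_upwards [hR.eventually_gt_atTop (2 * r0)] with k hk τ hτ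
    apply hK v (s k + τ • v) (R k / 2) (by linarith)
    intro w hw
    apply h0 k
    rw [mem_ball] at hw ⊢
    calc dist w (s k) ≤ dist w (s k + τ • v) + dist (s k + τ • v) (s k) := dist_triangle _ _ _
      _ < R k := by
        rw [dist_eq_norm (s k + τ • v), add_sub_cancel_left]
        linarith [hsmall k τ hτ]
  have hlim := tlim' hρlim hjet hbd (a := q v) (by simpa using hq v) 1
  have hexp := (Complex.continuous_exp.tendsto _).comp hlim
  simp only [one_pow, mul_one] at hexp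
  refine hexp.congr' ?_
  filter_upwards [hρlim.eventually_gt_atTop 1] with k hk
  have hk0 : 0 < ρ k := by linarith
  have e1 := (hφ k hk0).2 1 (by simpa using hk)
  have e0 := (hφ k hk0).2 0 (by simpa using hk0)
  rw [one_smul] at e1
  rw [zero_smul, add_zero] at e0
  simp only [Function.comp_apply, zero_smul, add_zero]
  rw [← e1, ← e0, sub_sub, Complex.exp_sub, Complex.exp_add, Complex.exp_neg]
  field_simp

theorem one_side {N : ℕ} {C : ℝ} (hC : KeyC N C) {h b : (Fin n → ℂ) → ℂ}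
    (hh : Differentiable ℂ h) (hb : Differentiable ℂ b) (H : MC N h b)
    (hb0 : ∃ t, b t ≠ 0) {l : Filter ℕ} [l.NeBot] {s : ℕ → Fin n → ℂ} {R : ℕ → ℝ}
    (hR : Tendsto R l atTop) (h0 : ∀ k, ∀ z ∈ ball (s k) (R k), h z ≠ 0)
    {q : (Fin n → ℂ) → ℂ} (hqf : QForm q)
    (hq : ∀ v, Tendsto (fun k => A2 h (s k) v) l (𝓝 (q v))) :
    IsExpPoly (fun z => b z * Complex.exp (-(q z / 2))) := by
  obtain ⟨r0, K, hr0, hK⟩ := A2_bound hC hh hb H hb0
  have hpt := fun v => limit_pt hh hK hR h0 hq v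
  have hdet : ∀ x y : Fin (N + 1) → Fin n → ℂ,
      Matrix.det (Matrix.of fun i j => Complex.exp (q (x i - y j) / 2) * b (x i + y j)) = 0 := by
    intro x y
    have h1 := tendsto_det (l := l) (N := N + 1)
      (M := fun k i j => (h (s k + (x i - y j)) / h (s k) *
        Complex.exp (-A1 h (s k) (x i - y j))) * b (x i + y j))
      (M' := fun i j => Complex.exp (q (x i - y j) / 2) * b (x i + y j))
      (fun i j => (hpt (x i - y j)).mul_const _)
    have h2 : ∀ k, Matrix.det (Matrix.of fun i j => (h (s k + (x i - y j)) / h (s k) *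
        Complex.exp (-A1 h (s k) (x i - y j))) * b (x i + y j)) = 0 := by
      intro k
      refine det_scale_zero (a := fun i => (h (s k))⁻¹ * Complex.exp (-A1 h (s k) (x i)))
        (c := fun j => Complex.exp (A1 h (s k) (y j))) ?_
        (H (fun i => x i + (2 : ℂ)⁻¹ • s k) (fun j => y j - (2 : ℂ)⁻¹ • s k))
      intro i j
      have e1 : (x i + (2 : ℂ)⁻¹ • s k) - (y j - (2 : ℂ)⁻¹ • s k) = s k + (x i - y j) := by
        ext m
        simp only [Pi.sub_apply, Pi.add_apply, Pi.smul_apply, smul_eq_mul]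
        ring
      have e2 : (x i + (2 : ℂ)⁻¹ • s k) + (y j - (2 : ℂ)⁻¹ • s k) = x i + y j := by
        ext m
        simp only [Pi.sub_apply, Pi.add_apply, Pi.smul_apply, smul_eq_mul]
        ring
      have e3 : Complex.exp (-A1 h (s k) (x i - y j)) =
          Complex.exp (-A1 h (s k) (x i)) * Complex.exp (A1 h (s k) (y j)) := by
        rw [← Complex.exp_add]
        congr 1
        simp only [A1, map_sub]
        ring
      rw [e1, e2, e3]
      ring
    have h3 : Tendsto (fun _ : ℕ => (0 : ℂ)) l (𝓝 (Matrix.det (Matrix.of fun i j =>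
        Complex.exp (q (x i - y j) / 2) * b (x i + y j)))) := h1.congr h2
    exact tendsto_nhds_unique h3 tendsto_const_nhds
  apply levi_civita (N := N)
  · have hd := hqf.differentiable
    apply hb.mul
    have e : (fun z => Complex.exp (-(q z / 2))) = fun z => Complex.exp ((-(1 / 2 : ℂ)) * q z) := by
      ext z; congr 1; ring
    rw [e]
    exact (hd.const_mul _).cexp
  · intro x y
    refine det_scale_zero (a := fun i => Complex.exp (-q (x i)))
      (c := fun j => Complex.exp (-q (y j))) ?_ (hdet x y)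
    intro i j
    have h4 := hqf.parallelogram (x i) (y j)
    have e : Complex.exp (-(q (x i + y j) / 2)) = Complex.exp (-q (x i)) *
        Complex.exp (-q (y j)) * Complex.exp (q (x i - y j) / 2) := by
      rw [← Complex.exp_add, ← Complex.exp_add]
      congr 1
      linear_combination (-1 / 2 : ℂ) * h4
    rw [e]; ring

theorem exists_hess_limit {N : ℕ} {C : ℝ} (hC : KeyC N C) {h b : (Fin n → ℂ) → ℂ}
    (hh : Differentiable ℂ h) (hb : Differentiable ℂ b) (H : MC N h b)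
    (hb0 : ∃ t, b t ≠ 0) (l : Ultrafilter ℕ) {s : ℕ → Fin n → ℂ} {R : ℕ → ℝ}
    (hR : Tendsto R l atTop) (h0 : ∀ k, ∀ z ∈ ball (s k) (R k), h z ≠ 0) :
    ∃ q : (Fin n → ℂ) → ℂ, QForm q ∧ ∀ v, Tendsto (fun k => A2 h (s k) v) l (𝓝 (q v)) := by
  obtain ⟨r0, K, hr0, hK⟩ := A2_bound hC hh hb H hb0
  have hex : ∀ v : Fin n → ℂ, ∃ a : ℂ, Tendsto (fun k => A2 h (s k) v) l (𝓝 a) := by
    intro v
    have hev : ∀ᶠ k in (l : Filter ℕ), A2 h (s k) v ∈ closedBall (0 : ℂ) (K v) := by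
      filter_upwards [hR.eventually_ge_atTop r0] with k hk
      rw [mem_closedBall, dist_zero_right]
      exact hK v (s k) (R k) hk (h0 k)
    obtain ⟨a, _, ha⟩ := (isCompact_closedBall (0 : ℂ) (K v)).ultrafilter_le_nhds'
      (l.map (fun k => A2 h (s k) v)) hev
    exact ⟨a, ha⟩
  choose q hq using hex
  exact ⟨q, qform_limit (fun k => qform_A2 h (s k)) hq, hq⟩

/-- `f` has zero-free balls of arbitrarily large radius. -/
def BigBalls (f : (Fin n → ℂ) → ℂ) : Prop := ∀ R : ℝ, ∃ s : Fin n → ℂ, ∀ z ∈ ball s R, f z ≠ 0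

theorem main_step {N : ℕ} {h b : (Fin n → ℂ) → ℂ}
    (hh : Differentiable ℂ h) (hb : Differentiable ℂ b) (H : MC N h b)
    (hh0 : ∃ t, h t ≠ 0) (hb0 : ∃ t, b t ≠ 0) (hbig : BigBalls h) :
    ∃ q : (Fin n → ℂ) → ℂ, QForm q ∧ IsExpPoly (fun z => h z * Complex.exp (-(q z / 2))) ∧
      IsExpPoly (fun z => b z * Complex.exp (-(q z / 2))) := by
  obtain ⟨C, hCpos, hC⟩ := key N
  have hC' : KeyC N C := hC
  choose s hs using fun k : ℕ => hbig (k : ℝ)
  set l : Ultrafilter ℕ := Filter.hyperfilter ℕ with hl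
  have hle : (l : Filter ℕ) ≤ atTop := by
    rw [hl, ← Nat.cofinite_eq_atTop]
    exact Filter.hyperfilter_le_cofinite
  have hR : Tendsto (fun k : ℕ => (k : ℝ)) l atTop := tendsto_natCast_atTop_atTop.mono_left hle
  obtain ⟨q, hqf, hq⟩ := exists_hess_limit hC' hh hb H hb0 l hR hs
  have hbexp := one_side hC' hh hb H hb0 hR hs hqf hq
  -- `b` has big zero-free balls
  have hPb : ∃ z, b z * Complex.exp (-(q z / 2)) ≠ 0 := by
    obtain ⟨t, ht⟩ := hb0
    exact ⟨t, mul_ne_zero ht (Complex.exp_ne_zero _)⟩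
  choose t ht using fun k : ℕ => exists_ball_ne_zero hbexp hPb (k : ℝ)
  have htb : ∀ k : ℕ, ∀ z ∈ ball (t k) (k : ℝ), b z ≠ 0 := fun k z hz =>
    left_ne_zero_of_mul (ht k z hz)
  have hq' : ∀ v, Tendsto (fun k => A2 b (t k) v) l (𝓝 (q v)) := by
    intro v
    have hv : 0 < ‖v‖ + 1 := by positivity
    have hdiff : Tendsto (fun k => A2 h (s k) v - A2 b (t k) v) l (𝓝 0) := by
      apply squeeze_zero_norm' (a := fun k : ℕ => C / ((k : ℝ) / (‖v‖ + 1)) ^ 2)
      · filter_upwards [hR.eventually_gt_atTop 0] with k hk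
        have hsmall : ∀ τ ∈ ball (0 : ℂ) ((k : ℝ) / (‖v‖ + 1)), ‖τ • v‖ < k := by
          intro τ hτ
          rw [mem_ball, dist_zero_right, lt_div_iff₀ hv] at hτ
          rw [norm_smul]
          nlinarith [norm_nonneg τ, norm_nonneg v]
        exact hess_close hC hh hb H (s k) (t k) v (by positivity)
          (fun τ hτ => by
            apply hs k
            rw [mem_ball, dist_eq_norm, add_sub_cancel_left]
            exact hsmall τ hτ)
          (fun τ hτ => by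
            apply htb k
            rw [mem_ball, dist_eq_norm, add_sub_cancel_left]
            exact hsmall τ hτ)
      · have h1 : Tendsto (fun k : ℕ => ((k : ℝ) / (‖v‖ + 1)) ^ 2) l atTop :=
          (tendsto_pow_atTop two_ne_zero).comp (hR.atTop_div_const hv)
        exact h1.const_div_atTop C
    have := (hq v).sub hdiff
    simpa using this
  have hhexp := one_side hC' hb hh H.symm hh0 hR htb hqf hq'
  exact ⟨q, hqf, hhexp, hbexp⟩

end Pool.Agent.Lib.MP_db21fa_an_h84
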