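import Pool.Agent.Lib.MP_db21fa_an_h84.Key
import Pool.Agent.Lib.MP_db21fa_an_h84.Osgood

/-!
Logarithms along complex lines and the comparison of the logarithmic Hessians of `h` and `b`.
-/

set_option autoImplicit false

open Metric Filter Topology

namespace Pool.Agent.Lib.MP_db21fa_an_h84

/-- A zero-free holomorphic function on a disc is an exponential. -/
theorem exists_log {g : ℂ → ℂ} {r : ℝ} (hr : 0 < r) (hg : DifferentiableOn ℂ g (ball 0 r))
    (h0 : ∀ z ∈ ball (0 : ℂ) r, g z ≠ 0) :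
    ∃ φ : ℂ → ℂ, (∀ z ∈ ball (0 : ℂ) r, HasDerivAt φ (deriv g z / g z) z) ∧
      ∀ z ∈ ball (0 : ℂ) r, Complex.exp (φ z) = g z := by
  have h1 : DifferentiableOn ℂ (fun z => deriv g z / g z) (ball 0 r) :=
    (hg.deriv isOpen_ball).div hg h0
  obtain ⟨F, hF⟩ := h1.isExactOn_ball
  have hgd : ∀ z ∈ ball (0 : ℂ) r, HasDerivAt g (deriv g z) z := fun z hz =>
    ((hg z hz).differentiableAt (isOpen_ball.mem_nhds hz)).hasDerivAt
  have h2 : ∀ z ∈ ball (0 : ℂ) r, HasDerivAt (fun z => g z * Complex.exp (-F z)) 0 z := by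
    intro z hz
    have h3 := (hgd z hz).mul ((hF z hz).neg.cexp)
    refine h3.congr_deriv ?_
    have := h0 z hz
    field_simp
    ring
  have h4 : ∀ z ∈ ball (0 : ℂ) r, g z * Complex.exp (-F z) = g 0 * Complex.exp (-F 0) := by
    intro z hz
    have := (convex_ball (0 : ℂ) r).norm_image_sub_le_of_norm_hasDerivWithin_le
      (f := fun z => g z * Complex.exp (-F z)) (f' := fun _ => 0) (C := 0) (x := 0) (y := z)
      (fun u hu => (h2 u hu).hasDerivWithinAt) (fun u _ => by simp) (mem_ball_self hr) hz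
    rw [zero_mul] at this
    have h5 := norm_le_zero_iff.mp this
    exact sub_eq_zero.mp h5
  set c := g 0 * Complex.exp (-F 0) with hc
  have hc0 : c ≠ 0 := mul_ne_zero (h0 0 (mem_ball_self hr)) (Complex.exp_ne_zero _)
  refine ⟨fun z => F z + Complex.log c, fun z hz => (hF z hz).add_const _, fun z hz => ?_⟩
  rw [Complex.exp_add, Complex.exp_log hc0, ← h4 z hz]
  have : Complex.exp (F z) * Complex.exp (-F z) = 1 := by rw [← Complex.exp_add]; simp
  calc _ = g z * (Complex.exp (F z) * Complex.exp (-F z)) := by ring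
    _ = g z := by rw [this, mul_one]

variable {n : ℕ}

/-- logarithmic derivative in direction `v` -/
noncomputable def A1 (H : (Fin n → ℂ) → ℂ) (z v : Fin n → ℂ) : ℂ := fderiv ℂ H z v / H z

/-- second logarithmic derivative in direction `v` -/
noncomputable def A2 (H : (Fin n → ℂ) → ℂ) (z v : Fin n → ℂ) : ℂ :=
  fderiv ℂ (fderiv ℂ H) z v v / H z - (fderiv ℂ H z v / H z) ^ 2

theorem exists_jet {H : (Fin n → ℂ) → ℂ} (hH : Differentiable ℂ H) (z v : Fin n → ℂ) {r : ℝ}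
    (hr : 0 < r) (h0 : ∀ τ ∈ ball (0 : ℂ) r, H (z + τ • v) ≠ 0) :
    ∃ φ : ℂ → ℂ, Jet φ (fun τ => A1 H (z + τ • v) v) (fun τ => A2 H (z + τ • v) v) r ∧
      ∀ τ ∈ ball (0 : ℂ) r, Complex.exp (φ τ) = H (z + τ • v) := by
  have hg : Differentiable ℂ (fun τ : ℂ => H (z + τ • v)) := fun t =>
    (line_deriv hH z v t).differentiableAt
  obtain ⟨φ, h1, h2⟩ := exists_log hr hg.differentiableOn h0
  refine ⟨φ, ?_, h2⟩
  intro τ hτ
  have h3 : ∀ t : ℂ, deriv (fun τ : ℂ => H (z + τ • v)) t = fderiv ℂ H (z + t • v) v := fun t =>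
    (line_deriv hH z v t).deriv
  constructor
  · have := h1 τ hτ
    rw [h3 τ] at this
    exact this
  · have hd := differentiable_fderiv hH
    have h4 : HasDerivAt (fun t : ℂ => fderiv ℂ H (z + t • v) v)
        (fderiv ℂ (fderiv ℂ H) (z + τ • v) v v) τ := by
      have h2 : HasFDerivAt (fderiv ℂ H) (fderiv ℂ (fderiv ℂ H) (z + τ • v)) (z + τ • v) :=
        (hd _).hasFDerivAt
      have h3 : HasDerivAt (fun t : ℂ => z + t • v) v τ := by
        simpa using ((hasDerivAt_id τ).smul_const v).const_add z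
      have h5 := h2.comp_hasDerivAt τ h3
      have h6 := h5.clm_apply (hasDerivAt_const τ v)
      simpa using h6
    have h5 := h4.div (line_deriv hH z v τ) (h0 τ hτ)
    refine h5.congr_deriv ?_
    have := h0 τ hτ
    simp only [A2]
    field_simp

/-- All `(N+1) × (N+1)` minors of `h (x - y) * b (x + y)` vanish. -/
def MC (N : ℕ) (h b : (Fin n → ℂ) → ℂ) : Prop :=
  ∀ x y : Fin (N + 1) → Fin n → ℂ,
    Matrix.det (Matrix.of fun i j => h (x i - y j) * b (x i + y j)) = 0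

theorem MC.symm {N : ℕ} {h b : (Fin n → ℂ) → ℂ} (H : MC N h b) : MC N b h := by
  intro x y
  have := H x (fun j => - y j)
  simpa [sub_eq_add_neg, mul_comm] using this

theorem hess_close {N : ℕ} {C : ℝ}
    (hC : ∀ r : ℝ, 0 < r → ∀ φ φ1 φ2 ψ ψ1 ψ2 : ℂ → ℂ,
      Jet φ φ1 φ2 r → Jet ψ ψ1 ψ2 r →
      RC N r (fun z => Complex.exp (φ z)) (fun z => Complex.exp (ψ z)) →
      ‖φ2 0 - ψ2 0‖ ≤ C / r ^ 2)
    {h b : (Fin n → ℂ) → ℂ} (hh : Differentiable ℂ h) (hb : Differentiable ℂ b)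
    (H : MC N h b) (z w v : Fin n → ℂ) {r : ℝ} (hr : 0 < r)
    (h0 : ∀ τ ∈ ball (0 : ℂ) r, h (z + τ • v) ≠ 0)
    (b0 : ∀ τ ∈ ball (0 : ℂ) r, b (w + τ • v) ≠ 0) :
    ‖A2 h z v - A2 b w v‖ ≤ C / r ^ 2 := by
  obtain ⟨φ, jφ, eφ⟩ := exists_jet hh z v hr h0
  obtain ⟨ψ, jψ, eψ⟩ := exists_jet hb w v hr b0
  have := hC r hr _ _ _ _ _ _ jφ jψ (by
    intro x y hxy
    have h1 := H (fun i => (2 : ℂ)⁻¹ • (z + w) + x i • v) (fun j => (2 : ℂ)⁻¹ • (w - z) + y j • v)
    have e1 : ∀ i j, ((2 : ℂ)⁻¹ • (z + w) + x i • v) - ((2 : ℂ)⁻¹ • (w - z) + y j • v)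
        = z + (x i - y j) • v := by
      intro i j
      ext l
      simp only [Pi.sub_apply, Pi.add_apply, Pi.smul_apply, smul_eq_mul]
      ring
    have e2 : ∀ i j, ((2 : ℂ)⁻¹ • (z + w) + x i • v) + ((2 : ℂ)⁻¹ • (w - z) + y j • v)
        = w + (x i + y j) • v := by
      intro i j
      ext l
      simp only [Pi.sub_apply, Pi.add_apply, Pi.smul_apply, smul_eq_mul]
      ring
    rw [← h1]
    congr 1
    ext i j
    simp only [Matrix.of_apply]
    rw [e1, e2, eφ _ (by simpa using (hxy i j).1), eψ _ (by simpa using (hxy i j).2)])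
  simpa using this

end Pool.Agent.Lib.MP_db21fa_an_h84
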