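import Pool.Agent.Lib.MP_db21fa_an_h84.ExpZero

/-!
Asymptotics of an exponential polynomial along a generic ray.
-/

set_option autoImplicit false

open Metric Filter Topology

namespace Pool.Agent.Lib.MP_db21fa_an_h84

variable {n : ℕ}

/-- A nonzero polynomial does not vanish on a nonempty open set. -/
theorem dense_ne_zero {p : MvPolynomial (Fin n) ℂ} (hp : p ≠ 0) :
    Dense {v : Fin n → ℂ | MvPolynomial.eval v p ≠ 0} := by
  rw [dense_iff_inter_open]
  intro U hU hne
  obtain ⟨v0, hv0⟩ := hne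
  by_contra hcon
  rw [Set.not_nonempty_iff_eq_empty] at hcon
  apply hp
  obtain ⟨ε, hε, hball⟩ := Metric.isOpen_iff.mp hU _ hv0
  apply MvPolynomial.funext_set (fun i => ball (v0 i) ε)
  · intro i
    exact (infinite_of_mem_nhds _ (ball_mem_nhds _ hε))
  · intro x hx
    rw [map_zero]
    by_contra h
    have hx' : x ∈ ball v0 ε := by
      rw [← ball_pi _ hε] at hx
      exact hx
    have : x ∈ U ∩ {v : Fin n → ℂ | MvPolynomial.eval v p ≠ 0} := ⟨hball hx', h⟩
    rw [hcon] at this
    exact this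

theorem dense_re_ne {mu : Fin n → ℂ} (hmu : mu ≠ 0) :
    Dense {v : Fin n → ℂ | (lin mu v).re ≠ 0} := by
  rw [dense_iff_inter_open]
  intro U hU hne
  obtain ⟨v0, hv0⟩ := hne
  by_cases h0 : (lin mu v0).re ≠ 0
  · exact ⟨v0, hv0, h0⟩
  push Not at h0
  set w : Fin n → ℂ := fun i => (starRingEnd ℂ) (mu i) with hw
  have h1 : (lin mu w).re = ∑ i, ‖mu i‖ ^ 2 := by
    simp only [lin, Complex.re_sum]
    refine Finset.sum_congr rfl fun i _ => ?_
    rw [hw, Complex.mul_conj, Complex.ofReal_re, Complex.normSq_eq_norm_sq]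
  have h2 : 0 < ∑ i, ‖mu i‖ ^ 2 := by
    obtain ⟨i, hi⟩ := Function.ne_iff.mp hmu
    apply Finset.sum_pos' (fun i _ => by positivity)
    exact ⟨i, Finset.mem_univ _, by
      have : ‖mu i‖ ≠ 0 := norm_ne_zero_iff.mpr hi
      positivity⟩
  have hcont : Tendsto (fun ε : ℝ => v0 + (ε : ℂ) • w) (𝓝[>] 0) (𝓝 v0) := by
    have : Continuous (fun ε : ℝ => v0 + (ε : ℂ) • w) := by fun_prop
    have h3 := this.tendsto 0
    simp only [Complex.ofReal_zero, zero_smul, add_zero] at h3
    exact h3.mono_left nhdsWithin_le_nhds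
  have hev := (hcont.eventually (hU.mem_nhds hv0)).and self_mem_nhdsWithin
  obtain ⟨ε, hε1, hε2⟩ := hev.exists
  refine ⟨_, hε1, ?_⟩
  rw [Set.mem_ofPred_eq, lin_add, lin_smul, Complex.add_re, h0, zero_add, Complex.re_ofReal_mul, h1]
  exact (mul_pos hε2 h2).ne'

theorem ray_asymptotic {P : (Fin n → ℂ) → ℂ} (hP : IsExpPoly P) (h0 : ∃ z, P z ≠ 0)
    {O : Set (Fin n → ℂ)} (hO : IsOpen O) (hOne : O.Nonempty) :
    ∃ v ∈ O, ∃ (ls : Fin n → ℂ) (d : ℕ) (c : ℂ), c ≠ 0 ∧
      Tendsto (fun t : ℕ => P ((t : ℂ) • v) * Complex.exp (-lin ls ((t : ℂ) • v)) / (t : ℂ) ^ d)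
        atTop (𝓝 c) := by
  classical
  obtain ⟨Λ, p, hPz⟩ := hP
  set Λ' := Λ.filter (fun lam => p lam ≠ 0) with hΛ'
  have hPz' : ∀ z, P z = ∑ lam ∈ Λ', MvPolynomial.eval z (p lam) * Complex.exp (lin lam z) := by
    intro z
    rw [hPz z, hΛ', Finset.sum_filter]
    refine Finset.sum_congr rfl fun lam _ => ?_
    by_cases h : p lam = 0
    · simp [h]
    · simp [h, lin]
  have hne : Λ'.Nonempty := by
    rw [Finset.nonempty_iff_ne_empty]
    intro he
    obtain ⟨z, hz⟩ := h0
    apply hz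
    rw [hPz' z, he, Finset.sum_empty]
  -- top components
  have hdeg : ∀ lam : Fin n → ℂ, ∃ d : ℕ, p lam ≠ 0 →
      (MvPolynomial.homogeneousComponent d (p lam) ≠ 0 ∧
        ∀ m, d < m → MvPolynomial.homogeneousComponent m (p lam) = 0) := by
    intro lam
    by_cases hps : p lam = 0
    · exact ⟨0, fun h => absurd hps h⟩
    have hex : ∃ m ∈ Finset.range ((p lam).totalDegree + 1),
        MvPolynomial.homogeneousComponent m (p lam) ≠ 0 := by
      by_contra hcon
      push Not at hcon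
      apply hps
      rw [← MvPolynomial.sum_homogeneousComponent (p lam)]
      exact Finset.sum_eq_zero hcon
    obtain ⟨d, hdm, hdmax⟩ := (((Finset.range ((p lam).totalDegree + 1)).filter
      (fun m => MvPolynomial.homogeneousComponent m (p lam) ≠ 0))).exists_max_image id
      (by
        obtain ⟨m, hm, hm'⟩ := hex
        exact ⟨m, Finset.mem_filter.mpr ⟨hm, hm'⟩⟩)
    refine ⟨d, fun _ => ⟨(Finset.mem_filter.mp hdm).2, ?_⟩⟩
    intro m hm
    by_contra hcon
    rcases Nat.lt_or_ge (p lam).totalDegree m with h | h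
    · exact hcon (MvPolynomial.homogeneousComponent_eq_zero _ _ h)
    · have := hdmax m (Finset.mem_filter.mpr ⟨Finset.mem_range.mpr (by omega), hcon⟩)
      simp only [id] at this
      omega
  choose dg hdg using hdeg
  -- generic direction
  have hD1 : Dense (⋂ lam ∈ (Λ' : Set (Fin n → ℂ)), {v : Fin n → ℂ |
      MvPolynomial.eval v (MvPolynomial.homogeneousComponent (dg lam) (p lam)) ≠ 0}) := by
    apply dense_biInter_of_isOpen
    · intro lam _
      exact (MvPolynomial.continuous_eval _).isOpen_preimage _ isOpen_compl_singleton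
    · exact Λ'.countable_toSet
    · intro lam hlam
      exact dense_ne_zero (hdg lam (Finset.mem_filter.mp hlam).2).1
  set T2 : Finset ((Fin n → ℂ) × (Fin n → ℂ)) := (Λ' ×ˢ Λ').filter (fun q => q.1 ≠ q.2) with hT2
  have hD2 : Dense (⋂ q ∈ (T2 : Set ((Fin n → ℂ) × (Fin n → ℂ))),
      {v : Fin n → ℂ | (lin (q.1 - q.2) v).re ≠ 0}) := by
    apply dense_biInter_of_isOpen
    · intro q _
      exact (Complex.continuous_re.comp (continuous_lin _)).isOpen_preimage _ isOpen_compl_singleton
    · exact T2.countable_toSet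
    · intro q hq
      have := (Finset.mem_filter.mp hq).2
      exact dense_re_ne (sub_ne_zero.mpr this)
  have hO1 : IsOpen (⋂ lam ∈ (Λ' : Set (Fin n → ℂ)), {v : Fin n → ℂ |
      MvPolynomial.eval v (MvPolynomial.homogeneousComponent (dg lam) (p lam)) ≠ 0}) := by
    apply isOpen_biInter_finset
    intro lam _
    exact (MvPolynomial.continuous_eval _).isOpen_preimage _ isOpen_compl_singleton
  obtain ⟨v1, hv1O, hv1D⟩ := hD1.inter_open_nonempty O hO hOne
  obtain ⟨v, hv, hvD2⟩ := hD2.inter_open_nonempty _ (hO.inter hO1) ⟨v1, hv1O, hv1D⟩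
  obtain ⟨hvO, hvD1⟩ := hv
  simp only [Set.mem_iInter, Finset.mem_coe, Set.mem_ofPred_eq] at hvD1 hvD2
  obtain ⟨ls, hls, hmax⟩ := Λ'.exists_max_image (fun lam => (lin lam v).re) hne
  have hstrict : ∀ lam ∈ Λ', lam ≠ ls → (lin lam v).re < (lin ls v).re := by
    intro lam hlam hne'
    refine lt_of_le_of_ne (hmax lam hlam) ?_
    intro heq
    have h1 := hvD2 (lam, ls) (Finset.mem_filter.mpr ⟨Finset.mem_product.mpr ⟨hlam, hls⟩, hne'⟩)
    apply h1
    have : lin (lam - ls) v = lin lam v - lin ls v := by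
      simp [lin, sub_mul, Finset.sum_sub_distrib]
    rw [this, Complex.sub_re, heq, sub_self]
  refine ⟨v, hvO, ls, dg ls, _, hvD1 ls hls, ?_⟩
  have hmain := ray_limit (hdg ls (Finset.mem_filter.mp hls).2).2 v (R := 0) (w := fun _ => 0)
    (fun _ => by simp)
  simp only [add_zero] at hmain
  have hothers : ∀ lam ∈ Λ'.erase ls, Tendsto (fun t : ℕ =>
      MvPolynomial.eval ((t : ℂ) • v) (p lam) *
        Complex.exp (lin lam ((t : ℂ) • v) - lin ls ((t : ℂ) • v)) / (t : ℂ) ^ (dg ls))
      atTop (𝓝 0) := by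
    intro lam hlam
    rw [Finset.mem_erase] at hlam
    obtain ⟨C, D, hC, hgr⟩ := poly_growth (p lam)
    set η : ℝ := (lin ls v).re - (lin lam v).re with hη
    have hηpos : 0 < η := by rw [hη]; linarith [hstrict lam hlam.2 hlam.1]
    set K : ℝ := 1 + ‖v‖ with hK
    have hK0 : 0 ≤ K := by positivity
    apply squeeze_zero_norm' (a := fun t : ℕ => (C * K ^ D / η ^ D) *
      ((η * (t : ℝ)) ^ D * Real.exp (-(η * (t : ℝ)))))
    · filter_upwards [eventually_ge_atTop 1] with t ht
      have ht1 : (1 : ℝ) ≤ t := by exact_mod_cast ht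
      have hzn : 1 + ‖(t : ℂ) • v‖ ≤ K * t := by
        rw [norm_smul, Complex.norm_natCast]
        have h3 : K * t = t + t * ‖v‖ := by rw [hK]; ring
        rw [h3]; linarith
      have h1 : ‖MvPolynomial.eval ((t : ℂ) • v) (p lam)‖ ≤ C * (K * t) ^ D :=
        (hgr _).trans (mul_le_mul_of_nonneg_left
          (pow_le_pow_left₀ (by positivity) hzn D) hC)
      have h2 : ‖Complex.exp (lin lam ((t : ℂ) • v) - lin ls ((t : ℂ) • v))‖
          ≤ Real.exp (-(η * t)) := by
        rw [Complex.norm_exp]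
        apply Real.exp_le_exp.mpr
        rw [lin_smul, lin_smul]
        simp only [Complex.sub_re, Complex.mul_re, Complex.natCast_re,
          Complex.natCast_im, zero_mul, sub_zero]
        rw [hη]
        nlinarith
      have h3 : (1 : ℝ) ≤ ‖(t : ℂ) ^ (dg ls)‖ := by
        rw [norm_pow, Complex.norm_natCast]
        exact one_le_pow₀ ht1
      rw [norm_div, norm_mul]
      calc _ ≤ ‖MvPolynomial.eval ((t : ℂ) • v) (p lam)‖ *
            ‖Complex.exp (lin lam ((t : ℂ) • v) - lin ls ((t : ℂ) • v))‖ :=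
              div_le_self (by positivity) h3
        _ ≤ (C * (K * t) ^ D) * Real.exp (-(η * t)) :=
              mul_le_mul h1 h2 (norm_nonneg _) (by positivity)
        _ = (C * K ^ D / η ^ D) * ((η * (t : ℝ)) ^ D * Real.exp (-(η * (t : ℝ)))) := by
              rw [mul_pow, mul_pow]; field_simp
    · have h1 : Tendsto (fun t : ℕ => η * (t : ℝ)) atTop atTop :=
        tendsto_natCast_atTop_atTop.const_mul_atTop hηpos
      have h2 := (Real.tendsto_pow_mul_exp_neg_atTop_nhds_zero D).comp h1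
      have h3 := h2.const_mul (C * K ^ D / η ^ D)
      simpa using h3
  have htot := hmain.add (tendsto_finsetSum _ hothers)
  simp only [Finset.sum_const_zero, add_zero] at htot
  refine htot.congr fun t => ?_
  rw [← Finset.sum_div, ← add_div, hPz', ← Finset.add_sum_erase _ _ hls, add_mul, Finset.sum_mul]
  congr 2
  · rw [mul_assoc, ← Complex.exp_add]
    simp
  · refine Finset.sum_congr rfl fun lam _ => ?_
    rw [mul_assoc, ← Complex.exp_add]
    congr 2

end Pool.Agent.Lib.MP_db21fa_an_h84
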