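import Pool.Agent.Lib.MP_db21fa_an_h84.Final
import Pool.Agent.Lib.MP_db21fa_an_h84.Ray
import Pool.Agent.Lib.MP_db21fa_an_h84.Growth

/-!
One variable: solutions with one function of minimal type.
-/

set_option autoImplicit false

open Metric Filter Topology

namespace Pool.Agent.Lib.MP_db21fa_an_h84

/-- Minimal type (order two). -/
def MinimalType (h : ℂ → ℂ) : Prop :=
  ∀ ε : ℝ, 0 < ε → ∃ C : ℝ, ∀ z, ‖h z‖ ≤ C * Real.exp (ε * ‖z‖ ^ 2)

/-- Exponential polynomials in one variable. -/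
def IsExpPoly1 (P : ℂ → ℂ) : Prop :=
  ∃ (Λ : Finset ℂ) (p : ℂ → Polynomial ℂ),
    ∀ z, P z = ∑ lam ∈ Λ, (p lam).eval z * Complex.exp (lam * z)

theorem isExpPoly1_of {P : (Fin 1 → ℂ) → ℂ} (h : IsExpPoly P) :
    IsExpPoly1 (fun z => P (fun _ => z)) := by
  classical
  obtain ⟨Λ, p, hp⟩ := h
  refine ⟨Λ.image (fun lam => lam 0),
    fun c => MvPolynomial.aeval (fun _ => Polynomial.X) (p (fun _ => c)), fun z => ?_⟩
  show P (fun _ => z) = _
  rw [hp, Finset.sum_image]
  · refine Finset.sum_congr rfl fun lam _ => ?_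
    have e1 : (fun _ : Fin 1 => lam 0) = lam := by
      ext i; rw [Subsingleton.elim i 0]
    beta_reduce
    rw [e1]
    congr 1
    · have : (Polynomial.eval z) (MvPolynomial.aeval (fun _ => Polynomial.X) (p lam)) =
          MvPolynomial.eval (fun _ => z) (p lam) := by
        induction p lam using MvPolynomial.induction_on with
        | C a => simp
        | add q r hq hr => simp [hq, hr]
        | mul_X q i hq => simp [hq]
      exact this.symm
    · simp
  · intro lam _ lam' _ hll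
    ext i
    rw [Subsingleton.elim i 0]
    exact hll

theorem minimal_exponent {P h : ℂ → ℂ} {α : ℂ} (hP : IsExpPoly (fun z : Fin 1 → ℂ => P (z 0)))
    (h0 : ∃ z, h z ≠ 0) (hh : ∀ z, h z = Complex.exp (α * z * z) * P z) (hmin : MinimalType h) :
    α = 0 := by
  by_contra hα
  obtain ⟨z0, hz0⟩ := h0
  have hP0 : ∃ z : Fin 1 → ℂ, P (z 0) ≠ 0 := ⟨fun _ => z0, by
    rw [hh] at hz0; exact right_ne_zero_of_mul hz0⟩
  set O : Set (Fin 1 → ℂ) := {v | 0 < (α * v 0 * v 0).re} with hO
  have hOo : IsOpen O := by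
    apply isOpen_lt continuous_const
    exact Complex.continuous_re.comp (by fun_prop)
  have hOne : O.Nonempty := by
    obtain ⟨w, hw⟩ := IsAlgClosed.exists_pow_nat_eq (α⁻¹) (n := 2) (by norm_num)
    refine ⟨fun _ => w, ?_⟩
    rw [hO, Set.mem_ofPred_eq, mul_assoc, ← sq, hw, mul_inv_cancel₀ hα]
    simp
  obtain ⟨v, hvO, ls, d, c, hc, hlim⟩ := ray_asymptotic hP hP0 hOo hOne
  set δ : ℝ := (α * v 0 * v 0).re with hδ
  have hδpos : 0 < δ := hvO
  set κ : ℝ := ‖v 0‖ ^ 2 with hκ
  have hκ0 : 0 < κ + 1 := by positivity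
  obtain ⟨C, hC⟩ := hmin (δ / (2 * (κ + 1))) (by positivity)
  have hlim' := hlim.norm
  -- but the sequence tends to zero
  have hzero : Tendsto (fun t : ℕ => ‖P (((t : ℂ) • v) 0) * Complex.exp (-lin ls ((t : ℂ) • v)) /
      (t : ℂ) ^ d‖) atTop (𝓝 0) := by
    set L : ℝ := ‖lin ls v‖ with hL
    apply squeeze_zero' (g := fun t : ℕ => |C| * Real.exp (-(δ / 2) * (t : ℝ) ^ 2 + L * t))
    · filter_upwards with t using norm_nonneg _
    · filter_upwards [eventually_ge_atTop 1] with t ht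
      have ht1 : (1 : ℝ) ≤ t := by exact_mod_cast ht
      have h3 : (1 : ℝ) ≤ ‖(t : ℂ) ^ d‖ := by
        rw [norm_pow, Complex.norm_natCast]
        exact one_le_pow₀ ht1
      have h4 : ‖P (((t : ℂ) • v) 0)‖ ≤ |C| * Real.exp (-(δ / 2) * (t : ℝ) ^ 2) := by
        have h5 := hC (((t : ℂ) • v) 0)
        rw [hh, norm_mul, Complex.norm_exp] at h5
        have e1 : (α * ((t : ℂ) • v) 0 * ((t : ℂ) • v) 0).re = (t : ℝ) ^ 2 * δ := by
          have : α * ((t : ℂ) • v) 0 * ((t : ℂ) • v) 0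
              = (((t : ℝ) ^ 2 : ℝ) : ℂ) * (α * v 0 * v 0) := by
            simp only [Pi.smul_apply, smul_eq_mul]; push_cast; ring
          rw [this, Complex.re_ofReal_mul]
        have e2 : ‖((t : ℂ) • v) 0‖ ^ 2 = (t : ℝ) ^ 2 * κ := by
          simp only [Pi.smul_apply, smul_eq_mul, norm_mul, Complex.norm_natCast, mul_pow, hκ]
        rw [e1, e2] at h5
        have h6 : δ / (2 * (κ + 1)) * ((t : ℝ) ^ 2 * κ) ≤ δ / 2 * (t : ℝ) ^ 2 := by
          have : δ / (2 * (κ + 1)) * ((t : ℝ) ^ 2 * κ)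
              = (δ / 2 * (t : ℝ) ^ 2) * (κ / (κ + 1)) := by field_simp
          rw [this]
          apply mul_le_of_le_one_right (by positivity)
          rw [div_le_one hκ0]; linarith
        have h7 : Real.exp ((t : ℝ) ^ 2 * δ) * ‖P (((t : ℂ) • v) 0)‖ ≤
            |C| * Real.exp (δ / 2 * (t : ℝ) ^ 2) :=
          h5.trans (mul_le_mul (le_abs_self C) (Real.exp_le_exp.mpr h6) (Real.exp_pos _).le
            (abs_nonneg _))
        have h8 : ‖P (((t : ℂ) • v) 0)‖ = Real.exp (-((t : ℝ) ^ 2 * δ)) *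
            (Real.exp ((t : ℝ) ^ 2 * δ) * ‖P (((t : ℂ) • v) 0)‖) := by
          rw [← mul_assoc, ← Real.exp_add]; simp
        rw [h8]
        calc _ ≤ Real.exp (-((t : ℝ) ^ 2 * δ)) * (|C| * Real.exp (δ / 2 * (t : ℝ) ^ 2)) :=
              mul_le_mul_of_nonneg_left h7 (Real.exp_pos _).le
          _ = |C| * (Real.exp (-((t : ℝ) ^ 2 * δ)) * Real.exp (δ / 2 * (t : ℝ) ^ 2)) := by ring
          _ = _ := by
              rw [← Real.exp_add]; congr 2; ring
      have h9 : ‖Complex.exp (-lin ls ((t : ℂ) • v))‖ ≤ Real.exp (L * t) := by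
        rw [Complex.norm_exp]
        apply Real.exp_le_exp.mpr
        refine (Complex.re_le_norm _).trans ?_
        rw [norm_neg, lin_smul, norm_mul, Complex.norm_natCast, mul_comm]
      rw [norm_div, norm_mul]
      calc _ ≤ ‖P (((t : ℂ) • v) 0)‖ * ‖Complex.exp (-lin ls ((t : ℂ) • v))‖ :=
            div_le_self (by positivity) h3
        _ ≤ (|C| * Real.exp (-(δ / 2) * (t : ℝ) ^ 2)) * Real.exp (L * t) :=
            mul_le_mul h4 h9 (norm_nonneg _) (by positivity)
        _ = _ := by rw [mul_assoc, ← Real.exp_add]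
    · have h1 : Tendsto (fun t : ℕ => -(δ / 2) * (t : ℝ) ^ 2 + L * t) atTop atBot := by
        have h2 : Tendsto (fun t : ℕ => ((δ / 2) * (t : ℝ) - L) * t) atTop atTop := by
          apply Tendsto.atTop_mul_atTop₀ _ tendsto_natCast_atTop_atTop
          apply tendsto_atTop_add_const_right
          exact tendsto_natCast_atTop_atTop.const_mul_atTop (by positivity)
        have h3 := tendsto_neg_atTop_atBot.comp h2
        refine h3.congr fun t => ?_
        simp only [Function.comp_apply]; ring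
      have h4 := (Real.tendsto_exp_atBot.comp h1).const_mul |C|
      simpa using h4
  have := tendsto_nhds_unique hlim' hzero
  exact hc (norm_eq_zero.mp this)

theorem expPoly_of_minimal {N : ℕ} {h b : ℂ → ℂ} (hh : Differentiable ℂ h)
    (hb : Differentiable ℂ b) (h0 : ∃ z, h z ≠ 0) (b0 : ∃ z, b z ≠ 0) {f g : Fin N → ℂ → ℂ}
    (heq : ∀ x y, h (x - y) * b (x + y) = ∑ j, f j x * g j y) (hmin : MinimalType h) :
    IsExpPoly1 h ∧ IsExpPoly1 b := by
  set H : (Fin 1 → ℂ) → ℂ := fun z => h (z 0) with hH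
  set B : (Fin 1 → ℂ) → ℂ := fun z => b (z 0) with hB
  have hHd : Differentiable ℂ H := hh.comp (differentiable_apply 0)
  have hBd : Differentiable ℂ B := hb.comp (differentiable_apply 0)
  have hMC : MC N H B := mc_of_sum (f := fun j z => f j (z 0)) (g := fun j z => g j (z 0))
    (fun x y => by simpa [hH, hB] using heq (x 0) (y 0))
  have hbig : BigBalls H := by
    intro R
    obtain ⟨s, hs⟩ := bigBalls_of_minimal hh h0 hmin R
    refine ⟨fun _ => s, fun z hz => hs (z 0) ?_⟩
    rw [mem_ball, dist_eq_norm] at hz ⊢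
    exact (norm_le_pi_norm (z - fun _ => s) 0).trans_lt hz
  have hH0 : ∃ z, H z ≠ 0 := by obtain ⟨z, hz⟩ := h0; exact ⟨fun _ => z, hz⟩
  have hB0 : ∃ z, B z ≠ 0 := by obtain ⟨z, hz⟩ := b0; exact ⟨fun _ => z, hz⟩
  obtain ⟨A, P₁, P₂, e1, e2, e3⟩ := expFamily_of_bigBalls hHd hBd hMC hH0 hB0 hbig
  have hform : ∀ z : Fin 1 → ℂ, (∑ i, ∑ j, A i j * z i * z j) = A 0 0 * z 0 * z 0 := by
    intro z; simp
  have hP1 : (fun z : Fin 1 → ℂ => P₁ (fun _ => z 0)) = P₁ := by
    ext z; congr 1; ext i; rw [Subsingleton.elim i 0]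
  have hα : A 0 0 = 0 := by
    apply minimal_exponent (P := fun z => P₁ (fun _ => z)) (h := h) _ h0 _ hmin
    · rw [hP1]; exact e1
    · intro z
      have := (e3 (fun _ => z)).1
      rw [hform] at this
      exact this
  have q1 : ∀ z, h z = P₁ (fun _ => z) := by
    intro z
    have := (e3 (fun _ => z)).1
    rw [hform, hα] at this
    simpa [hH] using this
  have q2 : ∀ z, b z = P₂ (fun _ => z) := by
    intro z
    have := (e3 (fun _ => z)).2
    rw [hform, hα] at this
    simpa [hB] using this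
  exact ⟨by rw [funext q1]; exact isExpPoly1_of e1, by rw [funext q2]; exact isExpPoly1_of e2⟩

/-- finite sum of products -/
def FinRank (F : ℂ → ℂ → ℂ) : Prop :=
  ∃ (ι : Type) (_ : Fintype ι) (f g : ι → ℂ → ℂ), ∀ x y, F x y = ∑ j, f j x * g j y

theorem FinRank.mul {F G : ℂ → ℂ → ℂ} (hF : FinRank F) (hG : FinRank G) :
    FinRank (fun x y => F x y * G x y) := by
  obtain ⟨ι, _, f, g, h1⟩ := hF
  obtain ⟨κ, _, f', g', h2⟩ := hG
  refine ⟨ι × κ, inferInstance, fun q x => f q.1 x * f' q.2 x, fun q y => g q.1 y * g' q.2 y,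
    fun x y => ?_⟩
  show F x y * G x y = _
  rw [h1, h2, Finset.sum_mul_sum, Fintype.sum_prod_type]
  exact Finset.sum_congr rfl fun i _ => Finset.sum_congr rfl fun j _ => by ring

theorem FinRank.add {F G : ℂ → ℂ → ℂ} (hF : FinRank F) (hG : FinRank G) :
    FinRank (fun x y => F x y + G x y) := by
  obtain ⟨ι, _, f, g, h1⟩ := hF
  obtain ⟨κ, _, f', g', h2⟩ := hG
  refine ⟨ι ⊕ κ, inferInstance, Sum.elim f f', Sum.elim g g', fun x y => ?_⟩
  show F x y + G x y = _
  rw [h1, h2, Fintype.sum_sum_type]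
  rfl

theorem FinRank.prod1 (f g : ℂ → ℂ) : FinRank (fun x y => f x * g y) :=
  ⟨Unit, inferInstance, fun _ => f, fun _ => g, fun x y => by simp⟩

theorem FinRank.sum {σ : Type} (s : Finset σ) {F : σ → ℂ → ℂ → ℂ} (h : ∀ i, FinRank (F i)) :
    FinRank (fun x y => ∑ i ∈ s, F i x y) := by
  classical
  induction s using Finset.induction_on with
  | empty => simpa using FinRank.prod1 (fun _ => 0) (fun _ => 0)
  | insert i s hi ih =>
    simp only [Finset.sum_insert hi]
    exact (h i).add ih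

theorem FinRank.poly {F : ℂ → ℂ → ℂ} (hF : FinRank F) (p : Polynomial ℂ) :
    FinRank (fun x y => p.eval (F x y)) := by
  induction p using Polynomial.induction_on' with
  | add p q hp hq => simpa using hp.add hq
  | monomial k a =>
    have hpow : ∀ k : ℕ, FinRank (fun x y => F x y ^ k) := by
      intro k
      induction k with
      | zero => simpa using FinRank.prod1 (fun _ => 1) (fun _ => 1)
      | succ k ih => simpa [pow_succ] using ih.mul hF
    have := (FinRank.prod1 (fun _ => a) (fun _ => 1)).mul (hpow k)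
    simpa using this

theorem finRank_sub {P : ℂ → ℂ} (hP : IsExpPoly1 P) (ε : ℂ) :
    FinRank (fun x y => P (x + ε * y)) := by
  obtain ⟨Λ, p, hp⟩ := hP
  simp only [hp]
  apply FinRank.sum
  intro lam
  apply FinRank.mul
  · apply FinRank.poly
    have := (FinRank.prod1 (fun x => x) (fun _ => 1)).add (FinRank.prod1 (fun _ => ε) (fun y => y))
    simpa using this
  · have := FinRank.prod1 (fun x => Complex.exp (lam * x)) (fun y => Complex.exp (lam * (ε * y)))
    simpa [← Complex.exp_add, ← mul_add] using this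

theorem exists_sum_of_expPoly {h b : ℂ → ℂ} (hh : IsExpPoly1 h) (hb : IsExpPoly1 b) :
    ∃ (N : ℕ) (f g : Fin N → ℂ → ℂ), ∀ x y, h (x - y) * b (x + y) = ∑ j, f j x * g j y := by
  have h1 := (finRank_sub hh (-1)).mul (finRank_sub hb 1)
  obtain ⟨ι, _, f, g, h2⟩ := h1
  let e := Fintype.equivFin ι
  refine ⟨Fintype.card ι, fun j => f (e.symm j), fun j => g (e.symm j), fun x y => ?_⟩
  have h3 := h2 x y
  rw [Equiv.sum_comp e.symm (fun j => f j x * g j y), ← h3]
  congr 2 <;> ring

end Pool.Agent.Lib.MP_db21fa_an_h84
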